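import Mathlib
import Pool.Agent.Helper36.CJ.Defs

/-!
# Compactified Jacobians: isomorphisms between glued sheaves (modules of sections)
-/

open AlgebraicGeometry CategoryTheory

namespace CompJac

namespace NodalCurve

variable {k : Type} [Field k] {X : NodalCurve k}

theorem Iso.refl (I : X.TFSheaf) : I.Iso I := by
  refine ⟨1, fun v => one_ne_zero, fun m => by rw [one_mul], fun v => ?_⟩
  rw [Pi.one_apply, RatFunc.intDegree_one, add_zero]

theorem Iso.symm {I I' : X.TFSheaf} (h : I.Iso I') : I'.Iso I := by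
  obtain ⟨g, hg, hm, ha⟩ := h
  have hinv : ∀ m : X.Fun, g * (g⁻¹ * m) = m := by
    intro m
    funext v
    simp only [Pi.mul_apply, Pi.inv_apply]
    rw [mul_inv_cancel_left₀ (hg v)]
  refine ⟨g⁻¹, fun v => inv_ne_zero (hg v), fun m => ?_, fun v => ?_⟩
  · rw [hm (g⁻¹ * m), hinv]
  · rw [ha v, Pi.inv_apply, RatFunc.intDegree_inv]
    ring

theorem Iso.trans {I I' I'' : X.TFSheaf} (h : I.Iso I') (h' : I'.Iso I'') : I.Iso I'' := by
  obtain ⟨g, hg, hm, ha⟩ := h
  obtain ⟨g', hg', hm', ha'⟩ := h'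
  refine ⟨g' * g, fun v => mul_ne_zero (hg' v) (hg v), fun m => ?_, fun v => ?_⟩
  · rw [hm m, hm' (g * m), mul_assoc]
  · rw [ha' v, ha v, Pi.mul_apply, RatFunc.intDegree_mul (hg' v) (hg v)]
    ring

theorem mem_gluedModule {α β : X.E → k} {f : X.Fun} : f ∈ X.gluedModule α β ↔
    ∃ F : X.V → Polynomial k, (∀ v, f v = algebraMap _ _ (F v)) ∧
      ∀ e, α e * (F (X.s e)).eval (X.p e) = β e * (F (X.t e)).eval (X.q e) := Iff.rfl

/-- Proportional linear conditions are equivalent. -/
theorem prop_iff {a b a' b' x y : k} (h : a ≠ 0 ∨ b ≠ 0) (h' : a' ≠ 0 ∨ b' ≠ 0)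
    (hc : a * b' = b * a') : a * x = b * y ↔ a' * x = b' * y := by
  constructor
  · intro hxy
    rcases h with ha | hb
    · apply mul_left_cancel₀ ha
      linear_combination a' * hxy - y * hc
    · apply mul_left_cancel₀ hb
      linear_combination b' * hxy - x * hc
  · intro hxy
    rcases h' with ha | hb
    · apply mul_left_cancel₀ ha
      linear_combination a * hxy + y * hc
    · apply mul_left_cancel₀ hb
      linear_combination b * hxy + x * hc

/-- Multiplication by constants on the components. -/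
theorem gauge_mem (α β α' β' : X.E → k) (lam : X.V → k) (hlam : ∀ v, lam v ≠ 0)
    (h : ∀ e, α e ≠ 0 ∨ β e ≠ 0) (h' : ∀ e, α' e ≠ 0 ∨ β' e ≠ 0)
    (hc : ∀ e, α e * β' e * lam (X.t e) = β e * α' e * lam (X.s e)) (m : X.Fun) :
    m ∈ X.gluedModule α β ↔ (fun v => RatFunc.C (lam v)) * m ∈ X.gluedModule α' β' := by
  have key : ∀ (e : X.E) (x y : k), α e * x = β e * y ↔
      α' e * (lam (X.s e) * x) = β' e * (lam (X.t e) * y) := by
    intro e x y
    rw [← mul_assoc, ← mul_assoc]
    apply prop_iff (h e)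
    · rcases h' e with h1 | h1
      · exact Or.inl (mul_ne_zero h1 (hlam _))
      · exact Or.inr (mul_ne_zero h1 (hlam _))
    · linear_combination hc e
  rw [mem_gluedModule, mem_gluedModule]
  constructor
  · rintro ⟨F, hF, hF'⟩
    refine ⟨fun v => Polynomial.C (lam v) * F v, fun v => ?_, fun e => ?_⟩
    · rw [Pi.mul_apply, hF, map_mul, RatFunc.algebraMap_C]
    · simp only [Polynomial.eval_mul, Polynomial.eval_C]
      exact (key e _ _).mp (hF' e)
  · rintro ⟨G, hG, hG'⟩
    refine ⟨fun v => Polynomial.C (lam v)⁻¹ * G v, fun v => ?_, fun e => ?_⟩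
    · rw [map_mul, ← hG v, Pi.mul_apply, RatFunc.algebraMap_C, ← mul_assoc, ← map_mul,
        inv_mul_cancel₀ (hlam v), map_one, one_mul]
    · simp only [Polynomial.eval_mul, Polynomial.eval_C]
      rw [key e]
      rw [mul_inv_cancel_left₀ (hlam _), mul_inv_cancel_left₀ (hlam _)]
      exact hG' e

/-- The rational function used in `glued_cross`. -/
noncomputable def crossFun (X : NodalCurve k) (e₀ : X.E) : X.Fun := fun v =>
  if v = X.s e₀ then (algebraMap (Polynomial k) (RatFunc k) (Polynomial.X - Polynomial.C (X.p e₀)))⁻¹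
  else if v = X.t e₀ then algebraMap (Polynomial k) (RatFunc k) (Polynomial.X - Polynomial.C (X.q e₀))
  else 1

noncomputable def crossS (X : NodalCurve k) (e₀ e : X.E) : k :=
  if X.s e = X.s e₀ then (if e = e₀ then 1 else X.p e - X.p e₀)
  else if X.s e = X.t e₀ then (X.p e - X.q e₀)⁻¹ else 1

noncomputable def crossT (X : NodalCurve k) (e₀ e : X.E) : k :=
  if X.t e = X.s e₀ then X.q e - X.p e₀
  else if X.t e = X.t e₀ then (if e = e₀ then 1 else (X.q e - X.q e₀)⁻¹) else 1

theorem ss_ne {e e₀ : X.E} (hs : X.s e = X.s e₀) (he : e ≠ e₀) : X.p e - X.p e₀ ≠ 0 := by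
  intro h
  apply he
  have := @X.inj (Sum.inl e) (Sum.inl e₀) (by
    simp only [Sum.elim_inl, Prod.mk.injEq]
    exact ⟨hs, sub_eq_zero.mp h⟩)
  simpa using this

theorem tt_ne {e e₀ : X.E} (hs : X.t e = X.t e₀) (he : e ≠ e₀) : X.q e - X.q e₀ ≠ 0 := by
  intro h
  apply he
  have := @X.inj (Sum.inr e) (Sum.inr e₀) (by
    simp only [Sum.elim_inr, Prod.mk.injEq]
    exact ⟨hs, sub_eq_zero.mp h⟩)
  simpa using this

theorem st_ne {e e₀ : X.E} (hs : X.s e = X.t e₀) : X.p e - X.q e₀ ≠ 0 := by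
  intro h
  have := @X.inj (Sum.inl e) (Sum.inr e₀) (by
    simp only [Sum.elim_inl, Sum.elim_inr, Prod.mk.injEq]
    exact ⟨hs, sub_eq_zero.mp h⟩)
  simp at this

theorem ts_ne {e e₀ : X.E} (hs : X.t e = X.s e₀) : X.q e - X.p e₀ ≠ 0 := by
  intro h
  have := @X.inj (Sum.inr e) (Sum.inl e₀) (by
    simp only [Sum.elim_inl, Sum.elim_inr, Prod.mk.injEq]
    exact ⟨hs, sub_eq_zero.mp h⟩)
  simp at this

theorem crossS_ne (e₀ e : X.E) : X.crossS e₀ e ≠ 0 := by
  unfold crossS
  split_ifs with h1 h2 h3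
  · exact one_ne_zero
  · exact ss_ne h1 h2
  · exact inv_ne_zero (st_ne h3)
  · exact one_ne_zero

theorem crossT_ne (e₀ e : X.E) : X.crossT e₀ e ≠ 0 := by
  unfold crossT
  split_ifs with h1 h2 h3
  · exact ts_ne h1
  · exact one_ne_zero
  · exact inv_ne_zero (tt_ne h2 h3)
  · exact one_ne_zero

theorem lin_ne (a : k) : algebraMap (Polynomial k) (RatFunc k) (Polynomial.X - Polynomial.C a) ≠ 0 := by
  intro h
  have := (map_eq_zero_iff _ (RatFunc.algebraMap_injective k)).mp h
  exact Polynomial.X_sub_C_ne_zero a this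

theorem crossFun_ne (e₀ : X.E) (v : X.V) : X.crossFun e₀ v ≠ 0 := by
  unfold crossFun
  split_ifs
  · exact inv_ne_zero (lin_ne _)
  · exact lin_ne _
  · exact one_ne_zero

/-- The relation between the polynomials before and after the multiplication. -/
structure CrossRel (X : NodalCurve k) (e₀ : X.E) (F G : X.V → Polynomial k) : Prop where
  hs : F (X.s e₀) = (Polynomial.X - Polynomial.C (X.p e₀)) * G (X.s e₀)
  ht : G (X.t e₀) = (Polynomial.X - Polynomial.C (X.q e₀)) * F (X.t e₀)
  ho : ∀ v, v ≠ X.s e₀ → v ≠ X.t e₀ → F v = G v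

theorem CrossRel.evalS {e₀ : X.E} {F G : X.V → Polynomial k} (R : CrossRel X e₀ F G) {e : X.E}
    (he : e ≠ e₀) : (F (X.s e)).eval (X.p e) = X.crossS e₀ e * (G (X.s e)).eval (X.p e) := by
  unfold crossS
  by_cases h1 : X.s e = X.s e₀
  · rw [if_pos h1, if_neg he, h1, R.hs]
    simp
  · by_cases h2 : X.s e = X.t e₀
    · rw [if_neg h1, if_pos h2]
      rw [h2, R.ht]
      simp only [Polynomial.eval_mul, Polynomial.eval_sub, Polynomial.eval_X, Polynomial.eval_C]
      rw [inv_mul_cancel_left₀ (st_ne h2)]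
    · rw [if_neg h1, if_neg h2, one_mul, R.ho _ h1 h2]

theorem CrossRel.evalT {e₀ : X.E} {F G : X.V → Polynomial k} (R : CrossRel X e₀ F G) {e : X.E}
    (he : e ≠ e₀) : (F (X.t e)).eval (X.q e) = X.crossT e₀ e * (G (X.t e)).eval (X.q e) := by
  unfold crossT
  by_cases h1 : X.t e = X.s e₀
  · rw [if_pos h1, h1, R.hs]
    simp
  · by_cases h2 : X.t e = X.t e₀
    · rw [if_neg h1, if_pos h2, if_neg he]
      rw [h2, R.ht]
      simp only [Polynomial.eval_mul, Polynomial.eval_sub, Polynomial.eval_X, Polynomial.eval_C]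
      rw [inv_mul_cancel_left₀ (tt_ne h2 he)]
    · rw [if_neg h1, if_neg h2, one_mul, R.ho _ h1 h2]

theorem cross_mem (α β : X.E → k) (e₀ : X.E) (hne : X.s e₀ ≠ X.t e₀)
    (hβ : β e₀ = 0) (hα : α e₀ ≠ 0) (m : X.Fun) :
    m ∈ X.gluedModule α β ↔ X.crossFun e₀ * m ∈
      X.gluedModule (fun e => if e = e₀ then 0 else α e * X.crossS e₀ e)
        (fun e => if e = e₀ then 1 else β e * X.crossT e₀ e) := by
  rw [mem_gluedModule, mem_gluedModule]
  constructor
  · rintro ⟨F, hF, hF'⟩
    have h0 : (F (X.s e₀)).eval (X.p e₀) = 0 := by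
      have := hF' e₀
      rw [hβ, zero_mul] at this
      exact (mul_eq_zero.mp this).resolve_left hα
    obtain ⟨H, hH⟩ := Polynomial.dvd_iff_isRoot.mpr h0
    set G : X.V → Polynomial k := fun v => if v = X.s e₀ then H
      else if v = X.t e₀ then (Polynomial.X - Polynomial.C (X.q e₀)) * F v else F v with hG
    have R : CrossRel X e₀ F G := by
      refine ⟨?_, ?_, ?_⟩
      · rw [hG]; simp only [if_true]; exact hH
      · rw [hG]; simp only [if_neg hne.symm, if_true]
      · intro v h1 h2; rw [hG]; simp only [if_neg h1, if_neg h2]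
    refine ⟨G, fun v => ?_, fun e => ?_⟩
    · rw [Pi.mul_apply, hF]
      unfold crossFun
      by_cases h1 : v = X.s e₀
      · subst h1
        rw [if_pos rfl, hH, map_mul, inv_mul_cancel_left₀ (lin_ne _)]
        rw [hG]; simp only [if_true]
      · by_cases h2 : v = X.t e₀
        · subst h2
          rw [if_neg h1, if_pos rfl, R.ht, map_mul]
        · rw [if_neg h1, if_neg h2, one_mul, R.ho _ h1 h2]
    · by_cases he : e = e₀
      · subst he
        simp only [if_true, zero_mul, one_mul]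
        rw [R.ht]
        simp
      · simp only [if_neg he]
        have := hF' e
        rw [R.evalS he, R.evalT he] at this
        rw [mul_assoc, mul_assoc]
        exact this
  · rintro ⟨G, hG, hG'⟩
    have h0 : (G (X.t e₀)).eval (X.q e₀) = 0 := by
      have := hG' e₀
      simp only [if_true, zero_mul, one_mul] at this
      exact this.symm
    obtain ⟨H, hH⟩ := Polynomial.dvd_iff_isRoot.mpr h0
    set F : X.V → Polynomial k := fun v => if v = X.s e₀ then
      (Polynomial.X - Polynomial.C (X.p e₀)) * G v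
      else if v = X.t e₀ then H else G v with hF
    have R : CrossRel X e₀ F G := by
      refine ⟨?_, ?_, ?_⟩
      · rw [hF]; simp only [if_true]
      · rw [hF]; simp only [if_neg hne.symm, if_true]; exact hH
      · intro v h1 h2; rw [hF]; simp only [if_neg h1, if_neg h2]
    refine ⟨F, fun v => ?_, fun e => ?_⟩
    · apply mul_left_cancel₀ (crossFun_ne e₀ v)
      have h3 := hG v
      rw [Pi.mul_apply] at h3
      rw [h3]
      unfold crossFun
      by_cases h1 : v = X.s e₀
      · subst h1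
        rw [if_pos rfl, R.hs, map_mul, inv_mul_cancel_left₀ (lin_ne _)]
      · by_cases h2 : v = X.t e₀
        · subst h2
          rw [if_neg h1, if_pos rfl, R.ht, map_mul]
        · rw [if_neg h1, if_neg h2, one_mul, R.ho _ h1 h2]
    · by_cases he : e = e₀
      · subst he
        rw [hβ, zero_mul, R.hs]
        simp
      · have := hG' e
        simp only [if_neg he] at this
        rw [R.evalS he, R.evalT he, ← mul_assoc, ← mul_assoc]
        exact this

theorem crossFun_deg (e₀ : X.E) (hne : X.s e₀ ≠ X.t e₀) (D : X.V → ℤ) (v : X.V) :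
    (D - Pi.single (X.s e₀) 1 + Pi.single (X.t e₀) 1 : X.V → ℤ) v =
      D v + (X.crossFun e₀ v).intDegree := by
  have hlin : ∀ a : k, (algebraMap (Polynomial k) (RatFunc k)
      (Polynomial.X - Polynomial.C a)).intDegree = 1 := by
    intro a
    rw [RatFunc.intDegree_polynomial, Polynomial.natDegree_X_sub_C]
    rfl
  simp only [Pi.add_apply, Pi.sub_apply]
  unfold crossFun
  by_cases h1 : v = X.s e₀
  · subst h1
    rw [if_pos rfl, RatFunc.intDegree_inv, hlin, Pi.single_eq_same, Pi.single_eq_of_ne hne]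
    ring
  · by_cases h2 : v = X.t e₀
    · subst h2
      rw [if_neg h1, if_pos rfl, hlin, Pi.single_eq_same, Pi.single_eq_of_ne h1]
      ring
    · rw [if_neg h1, if_neg h2, RatFunc.intDegree_one, Pi.single_eq_of_ne h1,
        Pi.single_eq_of_ne h2]
      ring

/-- Lagrange interpolation at the branch points. -/
theorem interp (u w : X.E → k) : ∃ F : X.V → Polynomial k,
    (∀ e, (F (X.s e)).eval (X.p e) = u e) ∧ (∀ e, (F (X.t e)).eval (X.q e) = w e) := by
  classical
  set comp : X.E ⊕ X.E → X.V := Sum.elim X.s X.t with hcomp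
  set crd : X.E ⊕ X.E → k := Sum.elim X.p X.q with hcrd
  have hpair : ∀ i, (Sum.elim (fun e => (X.s e, X.p e)) (fun e => (X.t e, X.q e)) :
      X.E ⊕ X.E → X.V × k) i = (comp i, crd i) := by
    rintro (e | e) <;> rfl
  have hinj : ∀ v, Set.InjOn crd (Finset.univ.filter fun i => comp i = v : Finset (X.E ⊕ X.E)) := by
    intro v i hi j hj hij
    apply X.inj
    rw [hpair, hpair]
    simp only [Finset.coe_filter, Finset.mem_univ, true_and, Set.mem_ofPred_eq] at hi hj
    rw [hi, hj, hij]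
  refine ⟨fun v => Lagrange.interpolate (Finset.univ.filter fun i => comp i = v) crd
    (Sum.elim u w), fun e => ?_, fun e => ?_⟩
  · have := Lagrange.eval_interpolate_at_node (Sum.elim u w) (hinj (X.s e)) (i := Sum.inl e)
      (by simp [hcomp])
    exact this
  · have := Lagrange.eval_interpolate_at_node (Sum.elim u w) (hinj (X.t e)) (i := Sum.inr e)
      (by simp [hcomp])
    exact this

/-- No multiplication identifies a module degenerate at `e₀` with one that is not. -/
theorem not_mem_iff_of_degenerate (α β α' β' : X.E → k) (e₀ : X.E)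
    (h0 : α e₀ = 0 ∨ β e₀ = 0) (h1 : α' e₀ ≠ 0 ∧ β' e₀ ≠ 0) (g : X.Fun) (hg : ∀ v, g v ≠ 0)
    (hm : ∀ m, m ∈ X.gluedModule α β ↔ g * m ∈ X.gluedModule α' β') : False := by
  classical
  obtain ⟨P, hPs, hPt⟩ := interp (X := X) (fun e => if e = e₀ then 1 else 0) (fun _ => 0)
  obtain ⟨F, hFs, hFt⟩ := interp (X := X) (fun e => if e = e₀ then β' e₀ else 0)
    (fun e => if e = e₀ then α' e₀ else 0)
  set φ : X.Fun := fun v => algebraMap (Polynomial k) (RatFunc k) (P v) with hφ
  set f : X.Fun := fun v => algebraMap (Polynomial k) (RatFunc k) (F v) with hf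
  have hstab : ∀ m, m ∈ X.gluedModule α β → φ * m ∈ X.gluedModule α β := by
    rintro m ⟨G, hG, hG'⟩
    refine ⟨P * G, fun v => ?_, fun e => ?_⟩
    · rw [Pi.mul_apply, hG, Pi.mul_apply, map_mul]
    · rw [Pi.mul_apply, Pi.mul_apply, Polynomial.eval_mul, Polynomial.eval_mul, hPs, hPt,
        zero_mul, mul_zero]
      by_cases he : e = e₀
      · subst he
        rw [if_pos rfl, one_mul]
        rcases h0 with h0 | h0
        · rw [h0, zero_mul]
        · rw [hG' e, h0, zero_mul]
      · rw [if_neg he, zero_mul, mul_zero]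
  have hfm : f ∈ X.gluedModule α' β' := by
    refine ⟨F, fun v => rfl, fun e => ?_⟩
    rw [hFs, hFt]
    by_cases he : e = e₀
    · subst he
      rw [if_pos rfl, if_pos rfl, mul_comm]
    · rw [if_neg he, if_neg he, mul_zero, mul_zero]
  have hinv : ∀ m : X.Fun, g * (g⁻¹ * m) = m := by
    intro m
    funext v
    simp only [Pi.mul_apply, Pi.inv_apply]
    rw [mul_inv_cancel_left₀ (hg v)]
  have h2 : g⁻¹ * f ∈ X.gluedModule α β := by
    rw [hm, hinv]
    exact hfm
  have h3 := hstab _ h2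
  rw [hm] at h3
  have h4 : g * (φ * (g⁻¹ * f)) = φ * f := by
    rw [mul_left_comm, hinv]
  rw [h4] at h3
  obtain ⟨G, hG, hG'⟩ := h3
  have h5 : ∀ v, G v = P v * F v := by
    intro v
    apply RatFunc.algebraMap_injective k
    rw [← hG v, Pi.mul_apply, map_mul]
  have h6 := hG' e₀
  rw [h5, h5, Polynomial.eval_mul, Polynomial.eval_mul, hPs, hPt, hFs, hFt, if_pos rfl,
    if_pos rfl, if_pos rfl, one_mul, zero_mul, mul_zero] at h6
  exact mul_ne_zero h1.1 h1.2 h6

/-! ### The statements for sheaves whose modules of sections are glued modules -/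

theorem iso_gauge {I I' : X.TFSheaf} (α β α' β' : X.E → k) (hI : I.M = X.gluedModule α β)
    (hI' : I'.M = X.gluedModule α' β') (ha : I'.a = I.a) (lam : X.V → k) (hlam : ∀ v, lam v ≠ 0)
    (h : ∀ e, α e ≠ 0 ∨ β e ≠ 0) (h' : ∀ e, α' e ≠ 0 ∨ β' e ≠ 0)
    (hc : ∀ e, α e * β' e * lam (X.t e) = β e * α' e * lam (X.s e)) : I.Iso I' := by
  refine ⟨fun v => RatFunc.C (lam v), fun v => ?_, fun m => ?_, fun v => ?_⟩
  · intro h0
    apply hlam v
    apply RatFunc.C_injective
    rw [map_zero]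
    exact h0
  · rw [hI, hI']
    exact gauge_mem α β α' β' lam hlam h h' hc m
  · rw [ha, RatFunc.intDegree_C, add_zero]

theorem iso_cross {I I' : X.TFSheaf} (D : X.V → ℤ) (α β : X.E → k) (e₀ : X.E)
    (hne : X.s e₀ ≠ X.t e₀) (hβ : β e₀ = 0) (hα : α e₀ ≠ 0)
    (hI : I.M = X.gluedModule α β) (haI : I.a = D)
    (hI' : I'.M = X.gluedModule (fun e => if e = e₀ then 0 else α e * X.crossS e₀ e)
        (fun e => if e = e₀ then 1 else β e * X.crossT e₀ e))
    (haI' : I'.a = D - Pi.single (X.s e₀) 1 + Pi.single (X.t e₀) 1) : I.Iso I' := by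
  refine ⟨X.crossFun e₀, crossFun_ne e₀, fun m => ?_, fun v => ?_⟩
  · rw [hI, hI']
    exact cross_mem α β e₀ hne hβ hα m
  · rw [haI, haI']
    exact crossFun_deg e₀ hne D v

theorem not_iso_degenerate {I I' : X.TFSheaf} (α β α' β' : X.E → k) (e₀ : X.E)
    (hI : I.M = X.gluedModule α β) (hI' : I'.M = X.gluedModule α' β')
    (h0 : α e₀ = 0 ∨ β e₀ = 0) (h1 : α' e₀ ≠ 0 ∧ β' e₀ ≠ 0) : ¬ I.Iso I' := by
  rintro ⟨g, hg, hm, -⟩
  rw [hI, hI'] at hm
  exact not_mem_iff_of_degenerate α β α' β' e₀ h0 h1 g hg hm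

end NodalCurve

end CompJac
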