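import Mathlib

/-!
# The halving algorithm and an exponential moment bound

`halving`: a sequence of yes/no tests on a finite set of labels is predicted by the majority vote
of the labels which are consistent with the earlier answers; the number of wrong predictions is at
most the logarithm of the number of labels.

`expMoment`: if the predictions for independent fair bits depend on the bits only through a
function with few values, then about half of the predictions (here: at most `log₂ (3/2)` of them,
up to the logarithm of the number of values) are right on average.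
-/

namespace Pool.Agent.Helper39.Halving

open Finset

variable {ι Λ : Type*}

/-- Strict majority vote of the labels in `s` for the test `q`. -/
def maj (s : Finset Λ) (q : Λ → Bool) : Bool :=
  decide (s.card < 2 * (s.filter (fun l => q l = true)).card)

theorem two_mul_card_filter_le (s : Finset Λ) (q : Λ → Bool) (b : Bool) (h : maj s q ≠ b) :
    2 * (s.filter (fun l => q l = b)).card ≤ s.card := by
  have hsum : (s.filter (fun l => q l = true)).card + (s.filter (fun l => q l = false)).card
      = s.card := by
    have := Finset.card_filter_add_card_filter_not (s := s) (fun l => q l = true)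
    rw [← this]
    congr 2
    ext l
    simp
  cases b with
  | true =>
    have h2 : ¬ (s.card < 2 * (s.filter (fun l => q l = true)).card) := by
      simpa [maj] using h
    omega
  | false =>
    have h2 : s.card < 2 * (s.filter (fun l => q l = true)).card := by
      simpa [maj] using h
    omega

/-- The prediction of the halving algorithm for the test number `r`: the majority vote of the
labels consistent with the answers `t r'` to the earlier tests `q r'`. -/
def pred [LinearOrder ι] [Fintype ι] [Fintype Λ] (q : ι → Λ → Bool) (t : ι → Bool) (r : ι) :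
    Bool :=
  maj (univ.filter (fun l => ∀ r', r' < r → q r' l = t r')) (q r)

theorem pred_congr [LinearOrder ι] [Fintype ι] [Fintype Λ] {q q' : ι → Λ → Bool}
    {t t' : ι → Bool} {r : ι} (hq : ∀ r', r' ≤ r → q r' = q' r')
    (ht : ∀ r', r' < r → t r' = t' r') : pred q t r = pred q' t' r := by
  unfold pred
  rw [hq r le_rfl]
  congr 1
  ext l
  simp only [mem_filter, mem_univ, true_and]
  constructor
  · intro h r' hr'
    rw [← hq r' hr'.le, ← ht r' hr', h r' hr']
  · intro h r' hr'
    rw [hq r' hr'.le, ht r' hr', h r' hr']

/-- The halving algorithm makes at most `log₂ (number of labels)` mistakes. -/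
theorem halving [LinearOrder ι] [Fintype ι] [Fintype Λ] (q : ι → Λ → Bool) (l0 : Λ)
    (t : ι → Bool) (ht : ∀ r, t r = q r l0) :
    2 ^ (univ.filter (fun r => pred q t r ≠ t r)).card ≤ Fintype.card Λ := by
  classical
  have key : ∀ s : Finset ι, (∀ r ∈ s, ∀ r', r' < r → r' ∈ s) →
      2 ^ (s.filter (fun r => pred q t r ≠ t r)).card *
        ((univ : Finset Λ).filter (fun l => ∀ r' ∈ s, q r' l = t r')).card ≤ Fintype.card Λ := by
    intro s
    induction s using Finset.induction_on_max with
    | empty =>
      intro _
      simp
    | insert a s hmax ih =>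
      intro hlow
      have has : a ∉ s := fun h => lt_irrefl _ (hmax a h)
      have hs : ∀ r', r' ∈ s ↔ r' < a := by
        intro r'
        constructor
        · exact hmax r'
        · intro h
          have := hlow a (mem_insert_self a s) r' h
          rcases mem_insert.1 this with h1 | h1
          · exact absurd h1 h.ne
          · exact h1
      have ih' := ih (by
        intro r hr r' hr'
        exact (hs r').2 (hr'.trans ((hs r).1 hr)))
      have hcons : ((univ : Finset Λ).filter (fun l => ∀ r' ∈ s, q r' l = t r'))
          = univ.filter (fun l => ∀ r', r' < a → q r' l = t r') := by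
        ext l
        simp only [mem_filter, mem_univ, true_and]
        constructor
        · intro h r' hr'
          exact h r' ((hs r').2 hr')
        · intro h r' hr'
          exact h r' ((hs r').1 hr')
      have hins : ((univ : Finset Λ).filter (fun l => ∀ r' ∈ insert a s, q r' l = t r'))
          = (univ.filter (fun l => ∀ r' ∈ s, q r' l = t r')).filter (fun l => q a l = t a) := by
        ext l
        simp only [mem_filter, mem_univ, true_and, mem_insert, forall_eq_or_imp]
        tauto
      by_cases hp : pred q t a ≠ t a
      · have h1 : ((insert a s).filter (fun r => pred q t r ≠ t r)).card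
            = (s.filter (fun r => pred q t r ≠ t r)).card + 1 := by
          rw [filter_insert, if_pos hp, card_insert_of_notMem]
          simp [has]
        have h2 : 2 * (((univ : Finset Λ).filter (fun l => ∀ r' ∈ s, q r' l = t r')).filter
            (fun l => q a l = t a)).card
            ≤ ((univ : Finset Λ).filter (fun l => ∀ r' ∈ s, q r' l = t r')).card := by
          apply two_mul_card_filter_le
          rw [hcons]
          exact hp
        rw [h1, hins, pow_succ, mul_assoc]
        exact le_trans (Nat.mul_le_mul_left _ h2) ih'
      · have h1 : ((insert a s).filter (fun r => pred q t r ≠ t r)).card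
            = (s.filter (fun r => pred q t r ≠ t r)).card := by
          rw [filter_insert, if_neg hp]
        rw [h1, hins]
        exact le_trans (Nat.mul_le_mul_left _ (card_le_card (filter_subset _ _))) ih'
  have h := key univ (fun _ _ _ _ => mem_univ _)
  have hpos : 1 ≤ ((univ : Finset Λ).filter (fun l => ∀ r' ∈ (univ : Finset ι),
      q r' l = t r')).card := by
    apply Finset.card_pos.2
    exact ⟨l0, by simp [ht]⟩
  calc 2 ^ (univ.filter (fun r => pred q t r ≠ t r)).card
      = 2 ^ (univ.filter (fun r => pred q t r ≠ t r)).card * 1 := (mul_one _).symm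
    _ ≤ _ := Nat.mul_le_mul_left _ hpos
    _ ≤ _ := h

section moment

variable {I J : Type*} [Fintype I] [DecidableEq I] [Fintype J]

/-- The exponential moment of the number of agreements with a fixed pattern. -/
theorem sum_two_pow_agree (A : Finset I) (P : I → Bool) :
    ∑ T : I → Bool, (2 : ℝ) ^ (A.filter (fun i => P i = T i)).card
      = 2 ^ Fintype.card I * (3 / 2) ^ A.card := by
  have h1 : ∀ T : I → Bool, (2 : ℝ) ^ (A.filter (fun i => P i = T i)).card
      = ∏ i : I, (if i ∈ A then (if P i = T i then (2 : ℝ) else 1) else 1) := by
    intro T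
    rw [Finset.prod_ite_mem, Finset.univ_inter, Finset.prod_ite]
    simp
  rw [Finset.sum_congr rfl (fun T _ => h1 T)]
  have h2 := (Finset.prod_univ_sum (fun _ : I => (univ : Finset Bool))
    (fun i b => (if i ∈ A then (if P i = b then (2 : ℝ) else 1) else 1))).symm
  rw [Fintype.piFinset_univ] at h2
  rw [h2]
  have h3 : ∀ i : I, ∑ b : Bool, (if i ∈ A then (if P i = b then (2 : ℝ) else 1) else 1)
      = 2 * (if i ∈ A then (3 / 2 : ℝ) else 1) := by
    intro i
    by_cases hi : i ∈ A
    · rw [Fintype.sum_bool]
      cases hP : P i <;> simp [hi] <;> norm_num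
    · rw [Fintype.sum_bool]
      simp [hi]
      norm_num
  rw [Finset.prod_congr rfl (fun i _ => h3 i), Finset.prod_mul_distrib]
  congr 1
  · simp
  · rw [Finset.prod_ite_mem, Finset.univ_inter, Finset.prod_const]

/-- If the predictions depend on the bits only through a function with few values, few of them are
right on average. -/
theorem expMoment [Nonempty J] (A : Finset I) (F : (I → Bool) → J) (Φ : J → I → Bool) :
    ∑ T : I → Bool, ((A.filter (fun i => Φ (F T) i = T i)).card : ℝ)
      ≤ 2 ^ Fintype.card I * (Real.logb 2 (3 / 2) * A.card + Real.logb 2 (Fintype.card J)) := by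
  classical
  set a : (I → Bool) → ℕ := fun T => (A.filter (fun i => Φ (F T) i = T i)).card with ha
  set C : ℝ := (Fintype.card J : ℝ) * (3 / 2) ^ A.card with hC
  have hJ : (0 : ℝ) < Fintype.card J := by exact_mod_cast Fintype.card_pos
  have hCpos : 0 < C := by positivity
  have hl2 : 0 < Real.log 2 := Real.log_pos (by norm_num)
  have hsum : ∑ T : I → Bool, (2 : ℝ) ^ a T ≤ C * 2 ^ Fintype.card I := by
    calc ∑ T : I → Bool, (2 : ℝ) ^ a T
        ≤ ∑ T : I → Bool, ∑ j : J, (2 : ℝ) ^ (A.filter (fun i => Φ j i = T i)).card := by
          apply Finset.sum_le_sum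
          intro T _
          exact Finset.single_le_sum
            (f := fun j => (2 : ℝ) ^ (A.filter (fun i => Φ j i = T i)).card)
            (fun j _ => by positivity) (mem_univ (F T))
      _ = ∑ j : J, ∑ T : I → Bool, (2 : ℝ) ^ (A.filter (fun i => Φ j i = T i)).card :=
          Finset.sum_comm
      _ = ∑ _j : J, (2 ^ Fintype.card I * (3 / 2 : ℝ) ^ A.card) := by
          apply Finset.sum_congr rfl
          intro j _
          exact sum_two_pow_agree A (Φ j)
      _ = C * 2 ^ Fintype.card I := by
          rw [Finset.sum_const, card_univ, nsmul_eq_mul, hC]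
          ring
  have hpt : ∀ T : I → Bool, (a T : ℝ) * Real.log 2 ≤ (2 : ℝ) ^ a T / C - 1 + Real.log C := by
    intro T
    have h1 : Real.log ((2 : ℝ) ^ a T / C) ≤ (2 : ℝ) ^ a T / C - 1 :=
      Real.log_le_sub_one_of_pos (by positivity)
    rw [Real.log_div (by positivity) hCpos.ne', Real.log_pow] at h1
    linarith
  have htot : (∑ T : I → Bool, (a T : ℝ)) * Real.log 2 ≤ 2 ^ Fintype.card I * Real.log C := by
    rw [Finset.sum_mul]
    calc ∑ T : I → Bool, (a T : ℝ) * Real.log 2
        ≤ ∑ T : I → Bool, ((2 : ℝ) ^ a T / C - 1 + Real.log C) :=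
          Finset.sum_le_sum (fun T _ => hpt T)
      _ = (∑ T : I → Bool, (2 : ℝ) ^ a T) / C + 2 ^ Fintype.card I * (Real.log C - 1) := by
          have : ∀ T : I → Bool, (2 : ℝ) ^ a T / C - 1 + Real.log C
              = (2 : ℝ) ^ a T / C + (Real.log C - 1) := fun T => by ring
          rw [Finset.sum_congr rfl (fun T _ => this T), Finset.sum_add_distrib, Finset.sum_div,
            Finset.sum_const, card_univ]
          simp
      _ ≤ (C * 2 ^ Fintype.card I) / C + 2 ^ Fintype.card I * (Real.log C - 1) := by
          gcongr
      _ = 2 ^ Fintype.card I * Real.log C := by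
          field_simp
          ring
  have hlogC : Real.log C = (Real.logb 2 (3 / 2) * A.card + Real.logb 2 (Fintype.card J)) *
      Real.log 2 := by
    rw [hC, Real.log_mul hJ.ne' (by positivity), Real.log_pow]
    unfold Real.logb
    field_simp
    ring
  rw [hlogC, ← mul_assoc] at htot
  exact le_of_mul_le_mul_right htot hl2

theorem logb_three_halves_le : Real.logb 2 (3 / 2) ≤ 3 / 5 := by
  rw [Real.logb_le_iff_le_rpow (by norm_num) (by norm_num)]
  have h : ((3 / 2 : ℝ)) ^ (5 : ℕ) ≤ ((2 : ℝ) ^ (3 / 5 : ℝ)) ^ (5 : ℕ) := by
    rw [← Real.rpow_natCast ((2 : ℝ) ^ (3 / 5 : ℝ)) 5, ← Real.rpow_mul (by norm_num)]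
    norm_num
  exact le_of_pow_le_pow_left₀ (by norm_num) (by positivity) h

/-- `expMoment` with the constant `3 / 5` and `2 ^ m` values. -/
theorem expMoment' (m : ℕ) [Nonempty J] (hJ : Fintype.card J ≤ 2 ^ m) (A : Finset I)
    (F : (I → Bool) → J) (Φ : J → I → Bool) :
    ∑ T : I → Bool, ((A.filter (fun i => Φ (F T) i = T i)).card : ℝ)
      ≤ 2 ^ Fintype.card I * (3 / 5 * A.card + m) := by
  refine (expMoment A F Φ).trans ?_
  have hJ0 : (0 : ℝ) < Fintype.card J := by exact_mod_cast Fintype.card_pos
  have h1 : Real.logb 2 (Fintype.card J) ≤ m := by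
    rw [Real.logb_le_iff_le_rpow (by norm_num) hJ0, Real.rpow_natCast]
    exact_mod_cast hJ
  have h2 := logb_three_halves_le
  gcongr

end moment

end Pool.Agent.Helper39.Halving
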