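import Pool.Agent.Helper52.LC.Basic
import Pool.Agent.Helper66.LCCost

/-!
# Loose cycles: block Cauchy-Schwarz for prefix weights
-/

namespace Pool.Agent.Helper39.LC

open Finset Pool.Agent.Helper52.LC Pool.Agent.Helper66.LC

variable {n : ℕ}

theorem card_block (j k : ℕ) :
    (univ.filter (fun i : Fin n => j ≤ i.1 ∧ i.1 < k)).card ≤ k - j := by
  rw [← card_map Fin.valEmbedding]
  calc _ ≤ (Finset.Ico j k).card := by
        apply card_le_card
        intro l hl
        rw [mem_map] at hl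
        obtain ⟨i, hi, rfl⟩ := hl
        rw [mem_Ico]
        exact (mem_filter.mp hi).2
    _ = k - j := by simp

theorem W_sub_eq (x : Fin n → ℝ) {j k : ℕ} (hjk : j ≤ k) :
    W x k - W x j = ∑ i ∈ univ.filter (fun i : Fin n => j ≤ i.1 ∧ i.1 < k), x i := by
  unfold W
  rw [sub_eq_iff_eq_add, ← sum_union]
  · congr 1
    ext i
    simp only [mem_filter, mem_union, mem_univ, true_and]
    omega
  · rw [disjoint_left]
    intro i hi hi'
    simp only [mem_filter, mem_univ, true_and] at hi hi'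
    omega

/-- One block. -/
theorem block (x : Fin n → ℝ) {j k : ℕ} (hjk : j < k) :
    (W x k - W x j) ^ 2 / ((k : ℝ) - j) ≤ W (fun i => x i ^ 2) k - W (fun i => x i ^ 2) j := by
  have h0 : (0 : ℝ) < (k : ℝ) - j := by
    have : (j : ℝ) < k := by exact_mod_cast hjk
    linarith
  rw [div_le_iff₀ h0, W_sub_eq x hjk.le, W_sub_eq (fun i => x i ^ 2) hjk.le]
  calc (∑ i ∈ univ.filter (fun i : Fin n => j ≤ i.1 ∧ i.1 < k), x i) ^ 2
      ≤ (univ.filter (fun i : Fin n => j ≤ i.1 ∧ i.1 < k)).card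
        * ∑ i ∈ univ.filter (fun i : Fin n => j ≤ i.1 ∧ i.1 < k), x i ^ 2 :=
          sq_sum_le_card_mul_sum_sq
    _ ≤ ((k : ℝ) - j) * ∑ i ∈ univ.filter (fun i : Fin n => j ≤ i.1 ∧ i.1 < k), x i ^ 2 := by
        apply mul_le_mul_of_nonneg_right _ (sum_nonneg fun i _ => sq_nonneg _)
        have h1 := card_block (n := n) j k
        have h2 : ((univ.filter (fun i : Fin n => j ≤ i.1 ∧ i.1 < k)).card : ℝ) ≤ ((k - j : ℕ) : ℝ) := by
          exact_mod_cast h1
        rwa [Nat.cast_sub hjk.le] at h2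
    _ = (∑ i ∈ univ.filter (fun i : Fin n => j ≤ i.1 ∧ i.1 < k), x i ^ 2) * ((k : ℝ) - j) :=
        mul_comm _ _

theorem Wsq_le (x : Fin n → ℝ) (k : ℕ) : W (fun i => x i ^ 2) k ≤ ∑ i, x i ^ 2 :=
  sum_le_sum_of_subset_of_nonneg (filter_subset _ _) fun i _ _ => sq_nonneg _

theorem Wz (x : Fin n → ℝ) : W x 0 = 0 := by
  unfold W
  apply sum_eq_zero
  intro i hi
  simp at hi

/-- Block Cauchy-Schwarz for arbitrary prefix points. -/
theorem blocks (x : Fin n → ℝ) (p : ℕ → ℕ) (hp : StrictMono p) (m : ℕ) :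
    ∑ i ∈ range m, (W x (p (i+1)) - W x (p i)) ^ 2 / ((p (i+1) : ℝ) - p i) ≤
      W (fun i => x i ^ 2) (p m) - W (fun i => x i ^ 2) (p 0) := by
  induction m with
  | zero => simp
  | succ k ih =>
    rw [sum_range_succ]
    have := block x (hp (Nat.lt_succ_self k))
    simp only [Nat.succ_eq_add_one] at this
    linarith

theorem blocks_le (x : Fin n → ℝ) (p : ℕ → ℕ) (hp : StrictMono p) (h0 : p 0 = 0) (m : ℕ) :
    ∑ i ∈ range m, (W x (p (i+1)) - W x (p i)) ^ 2 / ((p (i+1) : ℝ) - p i) ≤ ∑ i, x i ^ 2 := by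
  have h1 := blocks x p hp m
  rw [h0, Wz] at h1
  linarith [Wsq_le x (p m)]

theorem block1 (x : Fin n → ℝ) {j : ℕ} (hj : 0 < j) :
    W x j ^ 2 / j ≤ ∑ i, x i ^ 2 := by
  have h1 := block x hj
  rw [Wz, Wz] at h1
  simp only [sub_zero, Nat.cast_zero] at h1
  linarith [Wsq_le x j]

theorem block2 (x : Fin n → ℝ) {j k : ℕ} (hj : 0 < j) (hk : j < k) :
    W x j ^ 2 / j + (W x k - W x j) ^ 2 / ((k : ℝ) - j) ≤ ∑ i, x i ^ 2 := by
  have h1 := block x hj
  have h2 := block x hk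
  rw [Wz, Wz] at h1
  simp only [sub_zero, Nat.cast_zero] at h1
  linarith [Wsq_le x k]

theorem block3 (x : Fin n → ℝ) {j k l : ℕ} (hj : 0 < j) (hk : j < k) (hl : k < l) :
    W x j ^ 2 / j + (W x k - W x j) ^ 2 / ((k : ℝ) - j) + (W x l - W x k) ^ 2 / ((l : ℝ) - k)
      ≤ ∑ i, x i ^ 2 := by
  have h1 := block x hj
  have h2 := block x hk
  have h3 := block x hl
  rw [Wz, Wz] at h1
  simp only [sub_zero, Nat.cast_zero] at h1
  linarith [Wsq_le x l]

theorem block4 (x : Fin n → ℝ) {j k l m : ℕ} (hj : 0 < j) (hk : j < k) (hl : k < l) (hm : l < m) :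
    W x j ^ 2 / j + (W x k - W x j) ^ 2 / ((k : ℝ) - j) + (W x l - W x k) ^ 2 / ((l : ℝ) - k)
      + (W x m - W x l) ^ 2 / ((m : ℝ) - l) ≤ ∑ i, x i ^ 2 := by
  have h1 := block x hj
  have h2 := block x hk
  have h3 := block x hl
  have h4 := block x hm
  rw [Wz, Wz] at h1
  simp only [sub_zero, Nat.cast_zero] at h1
  linarith [Wsq_le x m]

theorem block5 (x : Fin n → ℝ) {j k l m p : ℕ} (hj : 0 < j) (hk : j < k) (hl : k < l)
    (hm : l < m) (hp : m < p) :
    W x j ^ 2 / j + (W x k - W x j) ^ 2 / ((k : ℝ) - j) + (W x l - W x k) ^ 2 / ((l : ℝ) - k)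
      + (W x m - W x l) ^ 2 / ((m : ℝ) - l) + (W x p - W x m) ^ 2 / ((p : ℝ) - m)
      ≤ ∑ i, x i ^ 2 := by
  have h1 := block x hj
  have h2 := block x hk
  have h3 := block x hl
  have h4 := block x hm
  have h5 := block x hp
  rw [Wz, Wz] at h1
  simp only [sub_zero, Nat.cast_zero] at h1
  linarith [Wsq_le x p]

/-- The weight of one vertex as a difference of prefix weights. -/
theorem W_succ (x : Fin n → ℝ) (a : Fin n) : W x (a.1 + 1) = W x a.1 + x a := by
  have h := W_sub_eq x (Nat.le_succ a.1)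
  have h2 : univ.filter (fun i : Fin n => a.1 ≤ i.1 ∧ i.1 < a.1 + 1) = {a} := by
    ext i
    simp only [mem_filter, mem_univ, true_and, mem_singleton]
    constructor
    · intro h; apply Fin.ext; omega
    · rintro rfl; omega
  simp only [Nat.succ_eq_add_one] at h
  rw [h2, sum_singleton] at h
  linarith

theorem W_one (x : Fin n → ℝ) (h0 : 0 < n) : W x 1 = x ⟨0, h0⟩ := by
  have := W_succ x ⟨0, h0⟩
  simp only [Wz, zero_add] at this
  exact this

/-- Upper bound for later prefixes by the last vertex of an earlier one. -/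
theorem W_le_add (x : Fin n → ℝ) (hx : ∀ i, 0 ≤ x i) (hs : ∀ i j, i ≤ j → x j ≤ x i)
    (a : Fin n) {k : ℕ} (hk : a.1 + 1 ≤ k) :
    W x k ≤ W x (a.1 + 1) + ((k : ℝ) - (a.1 + 1)) * x a := by
  have h := W_sub_eq x hk
  have h2 : ∑ i ∈ univ.filter (fun i : Fin n => a.1 + 1 ≤ i.1 ∧ i.1 < k), x i ≤
      ((k : ℝ) - (a.1 + 1)) * x a := by
    calc ∑ i ∈ univ.filter (fun i : Fin n => a.1 + 1 ≤ i.1 ∧ i.1 < k), x i
        ≤ ∑ i ∈ univ.filter (fun i : Fin n => a.1 + 1 ≤ i.1 ∧ i.1 < k), x a := by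
          apply sum_le_sum
          intro i hi
          refine hs a i ?_
          have := (mem_filter.mp hi).2.1
          rw [Fin.le_def]
          omega
      _ = (univ.filter (fun i : Fin n => a.1 + 1 ≤ i.1 ∧ i.1 < k)).card * x a := by
          rw [sum_const, nsmul_eq_mul]
      _ ≤ ((k : ℝ) - (a.1 + 1)) * x a := by
          apply mul_le_mul_of_nonneg_right _ (hx a)
          have h1 := card_block (n := n) (a.1+1) k
          have h2 : ((univ.filter (fun i : Fin n => a.1 + 1 ≤ i.1 ∧ i.1 < k)).card : ℝ) ≤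
              ((k - (a.1+1) : ℕ) : ℝ) := by
            exact_mod_cast h1
          rw [Nat.cast_sub hk] at h2
          push_cast at h2
          exact h2
  linarith

/-- Lower bound of a prefix by its last vertex. -/
theorem W_ge (x : Fin n → ℝ) (hs : ∀ i j, i ≤ j → x j ≤ x i) (a : Fin n) {j : ℕ}
    (hj : j ≤ a.1 + 1) : ((a.1 + 1 : ℝ) - j) * x a ≤ W x (a.1 + 1) - W x j := by
  rw [W_sub_eq x hj]
  have hcard : (univ.filter (fun i : Fin n => j ≤ i.1 ∧ i.1 < a.1 + 1)).card = a.1 + 1 - j := by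
    rw [← card_map Fin.valEmbedding]
    have : (univ.filter (fun i : Fin n => j ≤ i.1 ∧ i.1 < a.1 + 1)).map Fin.valEmbedding =
        Finset.Ico j (a.1 + 1) := by
      ext l
      rw [mem_map, mem_Ico]
      constructor
      · rintro ⟨i, hi, rfl⟩
        exact (mem_filter.mp hi).2
      · intro hl
        refine ⟨⟨l, by have := a.2; omega⟩, ?_, rfl⟩
        rw [mem_filter]
        exact ⟨mem_univ _, hl⟩
    rw [this, Nat.card_Ico]
  calc ((a.1 + 1 : ℝ) - j) * x a =
        ∑ i ∈ univ.filter (fun i : Fin n => j ≤ i.1 ∧ i.1 < a.1 + 1), x a := by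
          rw [sum_const, hcard, nsmul_eq_mul, Nat.cast_sub hj]
          push_cast
          ring
    _ ≤ _ := by
          apply sum_le_sum
          intro i hi
          refine hs i a ?_
          have := (mem_filter.mp hi).2.2
          rw [Fin.le_def]
          omega

/-- Concavity of the prefix weights: `j (W k - W j) ≤ (k - j) W j`. -/
theorem W_conc (x : Fin n → ℝ) (hx : ∀ i, 0 ≤ x i) (hs : ∀ i j, i ≤ j → x j ≤ x i)
    {j k : ℕ} (hj : 0 < j) (hk : j ≤ k) :
    (j : ℝ) * (W x k - W x j) ≤ ((k : ℝ) - j) * W x j := by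
  have hkj : (0 : ℝ) ≤ (k : ℝ) - j := by
    have : (j : ℝ) ≤ k := by exact_mod_cast hk
    linarith
  rcases Nat.lt_or_ge (j - 1) n with hjn | hjn
  · have e : (⟨j - 1, hjn⟩ : Fin n).1 + 1 = j := by simp only; omega
    have h1 := W_le_add x hx hs ⟨j - 1, hjn⟩ (k := k) (by omega)
    have h2 := W_ge x hs ⟨j - 1, hjn⟩ (j := 0) (by omega)
    rw [Wz] at h2
    rw [e] at h1 h2
    have e2 : (((⟨j - 1, hjn⟩ : Fin n).1 : ℝ)) = (j : ℝ) - 1 := by
      simp only
      rw [Nat.cast_sub (by omega)]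
      push_cast
      ring
    rw [e2] at h1 h2
    have hj0 : (0 : ℝ) < j := by exact_mod_cast hj
    have h3 : (j : ℝ) * x ⟨j - 1, hjn⟩ ≤ W x j := by
      have : ((j : ℝ) - 1 + 1 - ((0 : ℕ) : ℝ)) * x ⟨j - 1, hjn⟩ = j * x ⟨j - 1, hjn⟩ := by
        push_cast; ring
      rw [this] at h2
      linarith
    have h4 : (j : ℝ) * (W x k - W x j) ≤ (j : ℝ) * (((k : ℝ) - ((j : ℝ) - 1 + 1)) * x ⟨j - 1, hjn⟩) :=
      mul_le_mul_of_nonneg_left (by linarith) hj0.le
    calc (j : ℝ) * (W x k - W x j) ≤ (j : ℝ) * (((k : ℝ) - ((j : ℝ) - 1 + 1)) * x ⟨j - 1, hjn⟩) := h4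
      _ = ((k : ℝ) - j) * (j * x ⟨j - 1, hjn⟩) := by ring
      _ ≤ ((k : ℝ) - j) * W x j := mul_le_mul_of_nonneg_left h3 hkj
  · have h0 : W x k = W x j := by
      have := W_sub_eq x hk
      have h2 : univ.filter (fun i : Fin n => j ≤ i.1 ∧ i.1 < k) = ∅ := by
        apply filter_eq_empty_iff.mpr
        intro i _ hi
        have := i.2
        omega
      rw [h2, sum_empty] at this
      linarith
    rw [h0, sub_self, mul_zero]
    apply mul_nonneg hkj
    exact sum_nonneg fun i _ => hx i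

end Pool.Agent.Helper39.LC
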