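import Pool.Agent.Helper52.LC.Basic
import Pool.Agent.Helper66.LCEmbed

/-!
# Loose cycles: hub and connector cycles
-/

namespace Pool.Agent.Helper39.LC

open Finset Pool.Agent.Helper52.LC

/-- A system of distinct representatives for `m` sets with at least `m` elements each. -/
theorem sdr {V : Type*} [DecidableEq V] {m : ℕ} (S : Fin m → Finset V)
    (hS : ∀ i, m ≤ (S i).card) : ∃ f : Fin m → V, Function.Injective f ∧ ∀ i, f i ∈ S i := by
  classical
  apply (Finset.all_card_le_biUnion_card_iff_exists_injective S).mp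
  intro T
  rcases T.eq_empty_or_nonempty with h | ⟨i, hi⟩
  · subst h; simp
  · have h1 : T.card ≤ m := by simpa using card_le_univ T
    have h2 : (S i).card ≤ (T.biUnion S).card := card_le_card (subset_biUnion_of_mem S hi)
    have := hS i
    omega

/-- An even cycle through hubs `hub i` and common neighbours `c i`. -/
theorem evenCycle {V : Type*} [Fintype V] [DecidableEq V] (k : ℕ) (hk : 2 ≤ k)
    (E : Finset (Finset V)) (hE : IsThreeGraph E) (hub c : Fin k → V)
    (hhub : Function.Injective hub) (hc : Function.Injective c)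
    (hdisj : ∀ i j, hub i ≠ c j) (α β : Fin k → ℕ)
    (hα : ∀ i, α i ≤ (avail E (hub i) (c i)).card)
    (hβ : ∀ i : Fin k, β i ≤
      (avail E (c i) (hub ⟨(i.1+1) % k, Nat.mod_lt _ (by omega)⟩)).card)
    (hcount : ∀ m < 2*k, (univ.filter (fun i => α i ≤ 2*k-2+m)).card +
      (univ.filter (fun i => β i ≤ 2*k-2+m)).card ≤ m) :
    HasLooseCycle (2*k) (by omega) E := by
  classical
  set cyc : Fin (2*k) → V := fun j => if j.1 % 2 = 0 then hub ⟨j.1/2, by omega⟩
    else c ⟨j.1/2, by omega⟩ with hcyc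
  have hinj : Function.Injective cyc := by
    intro i j hij
    simp only [hcyc] at hij
    split_ifs at hij with h1 h2 h2
    · have := congrArg Fin.val (hhub hij)
      simp only at this
      apply Fin.ext; omega
    · exact absurd hij (hdisj _ _)
    · exact absurd hij.symm (hdisj _ _)
    · have := congrArg Fin.val (hc hij)
      simp only at this
      apply Fin.ext; omega
  refine Pool.Agent.Helper66.LC.hasLooseCycle_of_avail (2*k) (by omega) (by omega) E hE cyc hinj ?_
  intro m hm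
  refine le_trans ?_ (hcount m hm)
  have hsub : (univ.filter (fun i : Fin (2*k) =>
      (avail E (cyc i) (cyc ⟨(i.1+1) % (2*k), Nat.mod_lt _ (by omega)⟩)).card ≤ 2*k - 2 + m)) ⊆
      ((univ.filter (fun i => α i ≤ 2*k-2+m)).image
        (fun i : Fin k => (⟨2*i.1, by omega⟩ : Fin (2*k)))) ∪
      ((univ.filter (fun i => β i ≤ 2*k-2+m)).image
        (fun i : Fin k => (⟨2*i.1+1, by omega⟩ : Fin (2*k)))) := by
    intro j hj
    rw [mem_filter] at hj
    have hj2 := hj.2
    rw [mem_union]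
    by_cases hpar : j.1 % 2 = 0
    · left
      rw [mem_image]
      refine ⟨⟨j.1/2, by omega⟩, ?_, by apply Fin.ext; simp only; omega⟩
      rw [mem_filter]
      refine ⟨mem_univ _, ?_⟩
      have e1 : cyc j = hub ⟨j.1/2, by omega⟩ := by simp only [hcyc, if_pos hpar]
      have e2 : cyc ⟨(j.1+1) % (2*k), Nat.mod_lt _ (by omega)⟩ = c ⟨j.1/2, by omega⟩ := by
        have hlt : j.1 + 1 < 2*k := by omega
        have hmod : (j.1+1) % (2*k) = j.1+1 := Nat.mod_eq_of_lt hlt
        have : ¬ ((j.1+1) % (2*k)) % 2 = 0 := by rw [hmod]; omega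
        simp only [hcyc, if_neg this]
        congr 1
        apply Fin.ext
        simp only [hmod]
        omega
      rw [e1, e2] at hj2
      exact (hα _).trans hj2
    · right
      rw [mem_image]
      refine ⟨⟨j.1/2, by omega⟩, ?_, by apply Fin.ext; simp only; omega⟩
      rw [mem_filter]
      refine ⟨mem_univ _, ?_⟩
      have e1 : cyc j = c ⟨j.1/2, by omega⟩ := by simp only [hcyc, if_neg hpar]
      have e2 : cyc ⟨(j.1+1) % (2*k), Nat.mod_lt _ (by omega)⟩ =
          hub ⟨(j.1/2+1) % k, Nat.mod_lt _ (by omega)⟩ := by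
        have hmod : (j.1+1) % (2*k) = 2 * ((j.1/2+1) % k) := by
          have : j.1 + 1 = 2 * (j.1/2+1) := by omega
          rw [this, Nat.mul_mod_mul_left]
        have : ((j.1+1) % (2*k)) % 2 = 0 := by rw [hmod]; omega
        simp only [hcyc, if_pos this]
        congr 1
        apply Fin.ext
        simp only [hmod]
        omega
      rw [e1, e2] at hj2
      exact (hβ _).trans hj2
  refine (card_le_card hsub).trans ((card_union_le _ _).trans ?_)
  exact Nat.add_le_add card_image_le card_image_le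

/-- An odd cycle through hubs `hub 0, …, hub (h-1)`, common neighbours `c i` of `hub i` and
`hub (i+1)`, closed by the two vertices `d1, d2`. -/
theorem oddCycle {V : Type*} [Fintype V] [DecidableEq V] (h : ℕ) (hh : 2 ≤ h)
    (E : Finset (Finset V)) (hE : IsThreeGraph E) (hub : Fin h → V) (c : Fin (h-1) → V)
    (d1 d2 : V) (hhub : Function.Injective hub) (hc : Function.Injective c)
    (hdisj : ∀ i j, hub i ≠ c j) (hd : d1 ≠ d2) (hd1 : ∀ i, d1 ≠ hub i) (hd2 : ∀ i, d2 ≠ hub i)
    (hd1c : ∀ i, d1 ≠ c i) (hd2c : ∀ i, d2 ≠ c i) (α β : Fin (h-1) → ℕ) (γ1 γ2 γ3 : ℕ)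
    (hα : ∀ i : Fin (h-1), α i ≤ (avail E (hub ⟨i.1, by omega⟩) (c i)).card)
    (hβ : ∀ i : Fin (h-1), β i ≤ (avail E (c i) (hub ⟨i.1+1, by omega⟩)).card)
    (hγ1 : γ1 ≤ (avail E (hub ⟨h-1, by omega⟩) d1).card)
    (hγ2 : γ2 ≤ (avail E d1 d2).card)
    (hγ3 : γ3 ≤ (avail E d2 (hub ⟨0, by omega⟩)).card)
    (hcount : ∀ m < 2*h+1, (univ.filter (fun i => α i ≤ 2*h-1+m)).card +
      (univ.filter (fun i => β i ≤ 2*h-1+m)).card + (if γ1 ≤ 2*h-1+m then 1 else 0) +
      (if γ2 ≤ 2*h-1+m then 1 else 0) + (if γ3 ≤ 2*h-1+m then 1 else 0) ≤ m) :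
    HasLooseCycle (2*h+1) (by omega) E := by
  classical
  set cyc : Fin (2*h+1) → V := fun j => if h0 : j.1 = 2*h then d2 else if h1 : j.1 = 2*h-1 then d1
    else if h2 : j.1 % 2 = 0 then hub ⟨j.1/2, by omega⟩
    else c ⟨j.1/2, by omega⟩ with hcyc
  have cyc_d2 : ∀ j : Fin (2*h+1), j.1 = 2*h → cyc j = d2 := by
    intro j hj; simp only [hcyc, dif_pos hj]
  have cyc_d1 : ∀ j : Fin (2*h+1), j.1 = 2*h-1 → cyc j = d1 := by
    intro j hj
    have : ¬ j.1 = 2*h := by omega
    simp only [hcyc, dif_neg this, dif_pos hj]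
  have cyc_hub : ∀ (j : Fin (2*h+1)) (i : ℕ) (hi : i < h), j.1 = 2*i → cyc j = hub ⟨i, hi⟩ := by
    intro j i hi hj
    have e1 : ¬ j.1 = 2*h := by omega
    have e2 : ¬ j.1 = 2*h-1 := by omega
    have e3 : j.1 % 2 = 0 := by omega
    simp only [hcyc, dif_neg e1, dif_neg e2, dif_pos e3]
    congr 1
    apply Fin.ext
    simp only
    omega
  have cyc_c : ∀ (j : Fin (2*h+1)) (i : ℕ) (hi : i < h-1), j.1 = 2*i+1 → cyc j = c ⟨i, hi⟩ := by
    intro j i hi hj
    have e1 : ¬ j.1 = 2*h := by omega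
    have e2 : ¬ j.1 = 2*h-1 := by omega
    have e3 : ¬ j.1 % 2 = 0 := by omega
    simp only [hcyc, dif_neg e1, dif_neg e2, dif_neg e3]
    congr 1
    apply Fin.ext
    simp only
    omega
  have cases4 : ∀ j : Fin (2*h+1), (j.1 = 2*h) ∨ (j.1 = 2*h-1) ∨ (∃ i, ∃ hi : i < h, j.1 = 2*i) ∨
      (∃ i, ∃ hi : i < h-1, j.1 = 2*i+1) := by
    intro j
    have := j.2
    by_cases e1 : j.1 = 2*h
    · exact Or.inl e1
    · by_cases e2 : j.1 = 2*h-1
      · exact Or.inr (Or.inl e2)
      · by_cases e3 : j.1 % 2 = 0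
        · exact Or.inr (Or.inr (Or.inl ⟨j.1/2, by omega, by omega⟩))
        · exact Or.inr (Or.inr (Or.inr ⟨j.1/2, by omega, by omega⟩))
  have hinj : Function.Injective cyc := by
    intro a b hab
    rcases cases4 a with ha | ha | ⟨i, hi, ha⟩ | ⟨i, hi, ha⟩ <;>
    rcases cases4 b with hb | hb | ⟨j, hj, hb⟩ | ⟨j, hj, hb⟩
    · exact Fin.ext (ha.trans hb.symm)
    · rw [cyc_d2 a ha, cyc_d1 b hb] at hab; exact absurd hab.symm hd
    · rw [cyc_d2 a ha, cyc_hub b j hj hb] at hab; exact absurd hab (hd2 _)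
    · rw [cyc_d2 a ha, cyc_c b j hj hb] at hab; exact absurd hab (hd2c _)
    · rw [cyc_d1 a ha, cyc_d2 b hb] at hab; exact absurd hab hd
    · exact Fin.ext (ha.trans hb.symm)
    · rw [cyc_d1 a ha, cyc_hub b j hj hb] at hab; exact absurd hab (hd1 _)
    · rw [cyc_d1 a ha, cyc_c b j hj hb] at hab; exact absurd hab (hd1c _)
    · rw [cyc_hub a i hi ha, cyc_d2 b hb] at hab; exact absurd hab.symm (hd2 _)
    · rw [cyc_hub a i hi ha, cyc_d1 b hb] at hab; exact absurd hab.symm (hd1 _)
    · rw [cyc_hub a i hi ha, cyc_hub b j hj hb] at hab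
      have := congrArg Fin.val (hhub hab)
      simp only at this
      apply Fin.ext; omega
    · rw [cyc_hub a i hi ha, cyc_c b j hj hb] at hab; exact absurd hab (hdisj _ _)
    · rw [cyc_c a i hi ha, cyc_d2 b hb] at hab; exact absurd hab.symm (hd2c _)
    · rw [cyc_c a i hi ha, cyc_d1 b hb] at hab; exact absurd hab.symm (hd1c _)
    · rw [cyc_c a i hi ha, cyc_hub b j hj hb] at hab; exact absurd hab.symm (hdisj _ _)
    · rw [cyc_c a i hi ha, cyc_c b j hj hb] at hab
      have := congrArg Fin.val (hc hab)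
      simp only at this
      apply Fin.ext; omega
  refine Pool.Agent.Helper66.LC.hasLooseCycle_of_avail (2*h+1) (by omega) (by omega) E hE cyc
    hinj ?_
  intro m hm
  refine le_trans ?_ (hcount m hm)
  have hsub : (univ.filter (fun i : Fin (2*h+1) =>
      (avail E (cyc i) (cyc ⟨(i.1+1) % (2*h+1), Nat.mod_lt _ (by omega)⟩)).card ≤
        2*h+1 - 2 + m)) ⊆
      (((((univ.filter (fun i => α i ≤ 2*h-1+m)).image
        (fun i : Fin (h-1) => (⟨2*i.1, by omega⟩ : Fin (2*h+1)))) ∪
      ((univ.filter (fun i => β i ≤ 2*h-1+m)).image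
        (fun i : Fin (h-1) => (⟨2*i.1+1, by omega⟩ : Fin (2*h+1))))) ∪
      (if γ1 ≤ 2*h-1+m then {(⟨2*h-2, by omega⟩ : Fin (2*h+1))} else ∅)) ∪
      (if γ2 ≤ 2*h-1+m then {(⟨2*h-1, by omega⟩ : Fin (2*h+1))} else ∅)) ∪
      (if γ3 ≤ 2*h-1+m then {(⟨2*h, by omega⟩ : Fin (2*h+1))} else ∅) := by
    intro j hj
    rw [mem_filter] at hj
    have hj2 := hj.2
    have hM : 2*h+1-2+m = 2*h-1+m := by omega
    rw [hM] at hj2
    simp only [mem_union]
    rcases cases4 j with ha | ha | ⟨i, hi, ha⟩ | ⟨i, hi, ha⟩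
    · right
      have e2 : cyc ⟨(j.1+1) % (2*h+1), Nat.mod_lt _ (by omega)⟩ = hub ⟨0, by omega⟩ := by
        apply cyc_hub _ 0
        simp only [ha, Nat.mod_self]
      rw [cyc_d2 j ha, e2] at hj2
      rw [if_pos (hγ3.trans hj2), mem_singleton]
      exact Fin.ext ha
    · left; right
      have e2 : cyc ⟨(j.1+1) % (2*h+1), Nat.mod_lt _ (by omega)⟩ = d2 := by
        apply cyc_d2
        simp only [ha]
        rw [Nat.mod_eq_of_lt (by omega)]
        omega
      rw [cyc_d1 j ha, e2] at hj2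
      rw [if_pos (hγ2.trans hj2), mem_singleton]
      exact Fin.ext ha
    · rcases Nat.lt_or_ge i (h-1) with hlt | hge
      · left; left; left; left
        rw [mem_image]
        refine ⟨⟨i, hlt⟩, ?_, Fin.ext ha.symm⟩
        rw [mem_filter]
        refine ⟨mem_univ _, ?_⟩
        have e2 : cyc ⟨(j.1+1) % (2*h+1), Nat.mod_lt _ (by omega)⟩ = c ⟨i, hlt⟩ := by
          apply cyc_c
          simp only [ha]
          rw [Nat.mod_eq_of_lt (by omega)]
        rw [cyc_hub j i hi ha, e2] at hj2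
        exact (hα ⟨i, hlt⟩).trans hj2
      · left; left; right
        have hi' : i = h-1 := by omega
        subst hi'
        have e2 : cyc ⟨(j.1+1) % (2*h+1), Nat.mod_lt _ (by omega)⟩ = d1 := by
          apply cyc_d1
          simp only [ha]
          rw [Nat.mod_eq_of_lt (by omega)]
          omega
        rw [cyc_hub j (h-1) hi ha, e2] at hj2
        rw [if_pos (hγ1.trans hj2), mem_singleton]
        apply Fin.ext
        simp only
        omega
    · left; left; left; right
      rw [mem_image]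
      refine ⟨⟨i, hi⟩, ?_, Fin.ext ha.symm⟩
      rw [mem_filter]
      refine ⟨mem_univ _, ?_⟩
      have e2 : cyc ⟨(j.1+1) % (2*h+1), Nat.mod_lt _ (by omega)⟩ = hub ⟨i+1, by omega⟩ := by
        apply cyc_hub
        simp only [ha]
        rw [Nat.mod_eq_of_lt (by omega)]
        ring
      rw [cyc_c j i hi ha, e2] at hj2
      exact (hβ ⟨i, hi⟩).trans hj2
  refine (card_le_card hsub).trans ?_
  have hs : ∀ (P : Prop) [Decidable P] (a : Fin (2*h+1)),
      (if P then ({a} : Finset (Fin (2*h+1))) else ∅).card ≤ if P then 1 else 0 := by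
    intro P _ a
    split_ifs <;> simp
  refine (card_union_le _ _).trans (Nat.add_le_add ?_ (hs _ _))
  refine (card_union_le _ _).trans (Nat.add_le_add ?_ (hs _ _))
  refine (card_union_le _ _).trans (Nat.add_le_add ?_ (hs _ _))
  exact (card_union_le _ _).trans (Nat.add_le_add card_image_le card_image_le)

end Pool.Agent.Helper39.LC
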