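import Mathlib
import Pool.Agent.Helper52.LC.Defs

/-!
# Loose cycles and Lagrangians: from an optimal weight vector to the core statement
-/

namespace Pool.Agent.Helper39.LC

open Finset Pool.Agent.Helper52.LC

section Basic

variable {V : Type*} [Fintype V] [DecidableEq V]

/-- The (ordered) weighted link of the vertex `a`. -/
noncomputable def link (E : Finset (Finset V)) (x : V → ℝ) (a : V) : ℝ :=
  ∑ b, ∑ c, (if ({a, b, c} : Finset V) ∈ E then x b * x c else 0)

/-- The derivative of the Lagrange polynomial with respect to `x a`. -/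
noncomputable def pder (E : Finset (Finset V)) (x : V → ℝ) (a : V) : ℝ :=
  ∑ e ∈ E, if a ∈ e then ∏ i ∈ e.erase a, x i else 0

theorem hasDerivAt_lagPoly (E : Finset (Finset V)) (x v : V → ℝ) :
    HasDerivAt (fun s : ℝ => lagPoly E (fun i => x i + s * v i)) (∑ i, v i * pder E x i) 0 := by
  have h1 : HasDerivAt (fun s : ℝ => ∑ e ∈ E, ∏ i ∈ e, (x i + s * v i))
      (∑ e ∈ E, ∑ i ∈ e, (∏ j ∈ e.erase i, (x j + 0 * v j)) • v i) 0 := by
    refine HasDerivAt.fun_sum fun e _ => ?_
    refine HasDerivAt.fun_finsetProd fun i _ => ?_
    have := ((hasDerivAt_id (0 : ℝ)).mul_const (v i)).const_add (x i)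
    simpa using this
  have h2 : (∑ e ∈ E, ∑ i ∈ e, (∏ j ∈ e.erase i, (x j + 0 * v j)) • v i) =
      ∑ i, v i * pder E x i := by
    simp only [zero_mul, add_zero, smul_eq_mul, pder, Finset.mul_sum]
    rw [Finset.sum_comm]
    refine Finset.sum_congr rfl fun e _ => ?_
    rw [← Finset.sum_filter_add_sum_filter_not univ (fun i => i ∈ e)]
    rw [Finset.sum_eq_zero (s := univ.filter fun i => ¬ i ∈ e)]
    · rw [add_zero, Finset.filter_mem_eq_inter, Finset.univ_inter]
      refine Finset.sum_congr rfl fun i hi => ?_
      rw [if_pos hi, mul_comm]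
    · intro i hi
      rw [Finset.mem_filter] at hi
      rw [if_neg hi.2, mul_zero]
  rw [h2] at h1
  exact h1

theorem euler {E : Finset (Finset V)} (hE : IsThreeGraph E) (x : V → ℝ) :
    ∑ i, x i * pder E x i = 3 * lagPoly E x := by
  simp only [pder, lagPoly, Finset.mul_sum]
  rw [Finset.sum_comm]
  refine Finset.sum_congr rfl fun e he => ?_
  have : ∀ i, x i * (if i ∈ e then ∏ j ∈ e.erase i, x j else 0) =
      if i ∈ e then ∏ j ∈ e, x j else 0 := by
    intro i
    split_ifs with h
    · exact Finset.mul_prod_erase e x h
    · simp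
  rw [Finset.sum_congr rfl fun i _ => this i]
  rw [← Finset.sum_filter, Finset.filter_mem_eq_inter, Finset.univ_inter, Finset.sum_const,
    hE e he]
  simp

theorem link_eq {E : Finset (Finset V)} (hE : IsThreeGraph E) (x : V → ℝ) (a : V) :
    link E x a = 2 * pder E x a := by
  have h1 : link E x a = ∑ e ∈ E, ∑ b, ∑ c, (if ({a, b, c} : Finset V) = e then x b * x c else 0) := by
    unfold link
    rw [Finset.sum_comm (s := E)]
    refine Finset.sum_congr rfl fun b _ => ?_
    rw [Finset.sum_comm (s := E)]
    refine Finset.sum_congr rfl fun c _ => ?_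
    rw [Finset.sum_ite_eq]
  rw [h1, pder, Finset.mul_sum]
  refine Finset.sum_congr rfl fun e he => ?_
  have hc := hE e he
  by_cases ha : a ∈ e
  · rw [if_pos ha]
    have hc2 : (e.erase a).card = 2 := by rw [Finset.card_erase_of_mem ha, hc]
    obtain ⟨p, q, hpq, hpe⟩ := Finset.card_eq_two.mp hc2
    have hap : a ≠ p := by
      intro h
      have : p ∈ e.erase a := by rw [hpe]; simp
      rw [← h] at this
      simp at this
    have haq : a ≠ q := by
      intro h
      have : q ∈ e.erase a := by rw [hpe]; simp
      rw [← h] at this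
      simp at this
    have he' : e = {a, p, q} := by
      rw [← Finset.insert_erase ha, hpe]
    rw [hpe, Finset.prod_pair hpq]
    have key : ∀ b c : V, (if ({a, b, c} : Finset V) = e then x b * x c else 0) =
        (if b = p then (if c = q then x b * x c else 0) else 0) +
        (if b = q then (if c = p then x b * x c else 0) else 0) := by
      intro b c
      by_cases h : ({a, b, c} : Finset V) = e
      · rw [if_pos h]
        have hb : b ∈ ({a, p, q} : Finset V) := by rw [← he', ← h]; simp
        have hcc : c ∈ ({a, p, q} : Finset V) := by rw [← he', ← h]; simp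
        have hcard : ({a, b, c} : Finset V).card = 3 := by rw [h]; exact hc
        have hab : a ≠ b := by
          rintro rfl
          have : ({a, a, c} : Finset V).card ≤ 2 := by
            rw [Finset.insert_eq_of_mem (by simp)]; exact Finset.card_le_two
          omega
        have hac : a ≠ c := by
          rintro rfl
          have : ({a, b, a} : Finset V).card ≤ 2 := by
            rw [Finset.insert_eq_of_mem (by simp)]; exact Finset.card_le_two
          omega
        have hbc : b ≠ c := by
          rintro rfl
          have : ({a, b, b} : Finset V).card ≤ 2 := by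
            rw [Finset.insert_eq_of_mem (s := {b}) (by simp)]; exact Finset.card_le_two
          omega
        simp only [Finset.mem_insert, Finset.mem_singleton] at hb hcc
        rcases hb with hb | hb | hb
        · exact absurd hb.symm hab
        · rcases hcc with h' | h' | h'
          · exact absurd h'.symm hac
          · exact absurd (hb.trans h'.symm) hbc
          · subst hb; subst h'
            simp [hpq]
        · rcases hcc with h' | h' | h'
          · exact absurd h'.symm hac
          · subst hb; subst h'
            simp [hpq.symm]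
          · exact absurd (hb.trans h'.symm) hbc
      · rw [if_neg h]
        have h1 : ¬ (b = p ∧ c = q) := by
          rintro ⟨rfl, rfl⟩
          exact h he'.symm
        have h2 : ¬ (b = q ∧ c = p) := by
          rintro ⟨rfl, rfl⟩
          apply h
          rw [he']
          rw [Finset.pair_comm b c]
        by_cases hb : b = p
        · by_cases hcq : c = q
          · exact absurd ⟨hb, hcq⟩ h1
          · by_cases hb2 : b = q
            · exact absurd (hb.symm.trans hb2) hpq
            · simp [hcq, hb2]
        · by_cases hb2 : b = q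
          · by_cases hcp : c = p
            · exact absurd ⟨hb2, hcp⟩ h2
            · simp [hcp, hb]
          · simp [hb, hb2]
    rw [Finset.sum_congr rfl fun b _ => Finset.sum_congr rfl fun c _ => key b c]
    simp only [Finset.sum_add_distrib]
    have e1 : ∑ b, ∑ c, (if b = p then (if c = q then x b * x c else 0) else 0) = x p * x q := by
      rw [Finset.sum_eq_single p]
      · simp
      · intro b _ hb; simp [hb]
      · simp
    have e2 : ∑ b, ∑ c, (if b = q then (if c = p then x b * x c else 0) else 0) = x q * x p := by
      rw [Finset.sum_eq_single q]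
      · simp
      · intro b _ hb; simp [hb]
      · simp
    rw [e1, e2]
    ring
  · rw [if_neg ha, mul_zero]
    refine Finset.sum_eq_zero fun b _ => Finset.sum_eq_zero fun c _ => ?_
    rw [if_neg]
    intro h
    apply ha
    rw [← h]
    simp

omit [Fintype V] [DecidableEq V] in
theorem continuous_lagPoly (E : Finset (Finset V)) : Continuous (lagPoly E) := by
  unfold lagPoly
  fun_prop

omit [DecidableEq V] in
theorem lagPoly_le_lag (E : Finset (Finset V)) {y : V → ℝ} (hy : y ∈ stdSimplex ℝ V) :
    lagPoly E y ≤ lag E := by
  refine le_csSup ?_ ⟨y, hy, rfl⟩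
  exact (isCompact_stdSimplex ℝ V).bddAbove_image (continuous_lagPoly E).continuousOn

theorem exists_max [Nonempty V] (E : Finset (Finset V)) :
    ∃ x ∈ stdSimplex ℝ V, lagPoly E x = lag E := by
  obtain ⟨x, hx, h⟩ := (isCompact_stdSimplex ℝ V).exists_sSup_image_eq
    (by
      obtain ⟨v⟩ := ‹Nonempty V›
      exact ⟨_, single_mem_stdSimplex ℝ v⟩) (continuous_lagPoly E).continuousOn
  exact ⟨x, hx, h.symm⟩

/-- Stationarity of a maximiser. -/
theorem kkt_pair {E : Finset (Finset V)} {x : V → ℝ} (hx : x ∈ stdSimplex ℝ V)
    (hmax : lagPoly E x = lag E) {a b : V} (ha : 0 < x a) (hb : 0 < x b) :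
    pder E x a = pder E x b := by
  by_cases hab : a = b
  · rw [hab]
  set v : V → ℝ := Pi.single a 1 - Pi.single b 1 with hv
  have hd := hasDerivAt_lagPoly E x v
  have hloc : IsLocalMax (fun s : ℝ => lagPoly E (fun i => x i + s * v i)) 0 := by
    have hmin : 0 < min (x a) (x b) := lt_min ha hb
    filter_upwards [Metric.ball_mem_nhds (0 : ℝ) hmin] with s hs
    rw [Metric.mem_ball, dist_zero_right, Real.norm_eq_abs, lt_min_iff, abs_lt, abs_lt] at hs
    have h0 : (fun i => x i + (0 : ℝ) * v i) = x := by funext i; simp
    rw [h0, hmax]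
    refine lagPoly_le_lag E ⟨?_, ?_⟩
    · intro i
      simp only [hv, Pi.sub_apply]
      by_cases h1 : i = a
      · subst h1
        rw [Pi.single_eq_same, Pi.single_eq_of_ne hab]
        linarith [hs.1.1]
      · by_cases h2 : i = b
        · subst h2
          rw [Pi.single_eq_same, Pi.single_eq_of_ne h1]
          linarith [hs.2.2]
        · rw [Pi.single_eq_of_ne h1, Pi.single_eq_of_ne h2]
          have := hx.1 i
          linarith
    · rw [Finset.sum_add_distrib, ← Finset.mul_sum, hx.2]
      simp [hv]
  have h0 := hloc.hasDerivAt_eq_zero hd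
  simp only [hv, Pi.sub_apply, sub_mul, Finset.sum_sub_distrib] at h0
  have s1 : ∀ w : V, ∑ i, (Pi.single w 1 : V → ℝ) i * pder E x i = pder E x w := by
    intro w
    rw [Finset.sum_eq_single w]
    · simp
    · intro i _ hi; rw [Pi.single_eq_of_ne hi, zero_mul]
    · simp
  rw [s1, s1] at h0
  linarith

theorem kkt_link {E : Finset (Finset V)} (hE : IsThreeGraph E) {x : V → ℝ}
    (hx : x ∈ stdSimplex ℝ V) (hmax : lagPoly E x = lag E) {a : V} (ha : 0 < x a) :
    link E x a = 6 * lag E := by
  have h1 : ∑ i, x i * pder E x i = ∑ i, x i * pder E x a := by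
    refine Finset.sum_congr rfl fun i _ => ?_
    rcases (hx.1 i).lt_or_eq with h | h
    · rw [kkt_pair hx hmax h ha]
    · rw [← h]; simp
  rw [euler hE, ← Finset.sum_mul, hx.2, one_mul, hmax] at h1
  rw [link_eq hE, ← h1]
  ring

end Basic

/-- Restriction of an optimal weighting to its support, sorted non-increasingly. -/
theorem reduce {n : ℕ} (hn : 0 < n) (E : Finset (Finset (Fin n))) (hE : IsThreeGraph E) :
    ∃ (m : ℕ) (σ : Fin m → Fin n) (x : Fin m → ℝ), Function.Injective σ ∧
      (∀ i, 0 < x i) ∧ (∀ i j, i ≤ j → x j ≤ x i) ∧ ∑ i, x i = 1 ∧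
      IsThreeGraph (univ.filter fun e : Finset (Fin m) => e.image σ ∈ E) ∧
      ∀ a, ∑ b, ∑ c, (if ({a, b, c} : Finset (Fin m)) ∈
        (univ.filter fun e : Finset (Fin m) => e.image σ ∈ E) then x b * x c else 0) =
          6 * lag E := by
  have : Nonempty (Fin n) := ⟨⟨0, hn⟩⟩
  obtain ⟨x, hx, hmax⟩ := exists_max E
  set S : Finset (Fin n) := univ.filter fun i => 0 < x i with hS
  set m := S.card with hm
  set e : Fin m ≃ S := S.equivFin.symm with he
  set f : Fin m → ℝ := fun i => - x (e i) with hf
  set σ : Fin m → Fin n := fun i => (e (Tuple.sort f i) : Fin n) with hσ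
  have hσinj : Function.Injective σ := by
    intro i j hij
    have := Subtype.ext hij
    exact (Tuple.sort f).injective (e.injective this)
  have hσpos : ∀ i, 0 < x (σ i) := by
    intro i
    exact (Finset.mem_filter.mp (e (Tuple.sort f i)).2).2
  have hσrange : ∀ i, 0 < x i → i ∈ Set.range σ := by
    intro i hi
    have hiS : i ∈ S := by rw [hS]; simp [hi]
    refine ⟨(Tuple.sort f).symm (e.symm ⟨i, hiS⟩), ?_⟩
    simp [hσ]
  have hzero : ∀ i, i ∉ Set.range σ → x i = 0 := by
    intro i hi
    rcases (hx.1 i).lt_or_eq with h | h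
    · exact absurd (hσrange i h) hi
    · exact h.symm
  have hmem : ∀ e' : Finset (Fin m), e' ∈ (univ.filter fun e : Finset (Fin m) => e.image σ ∈ E) ↔
      e'.image σ ∈ E := by intro e'; simp
  refine ⟨m, σ, fun i => x (σ i), hσinj, hσpos, ?_, ?_, ?_, ?_⟩
  · intro i j hij
    have := Tuple.monotone_sort f hij
    simp only [Function.comp, hf] at this
    simp only [hσ]
    linarith
  · rw [← hx.2]
    exact Fintype.sum_of_injective σ hσinj _ _ hzero fun i => rfl
  · intro e' he'
    rw [hmem] at he'
    rw [← Finset.card_image_of_injective e' hσinj]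
    exact hE _ he'
  · intro a
    rw [← kkt_link hE hx hmax (hσpos a), link]
    refine Fintype.sum_of_injective σ hσinj _ _ ?_ ?_
    · intro b hb
      rw [hzero b hb]
      simp
    · intro b
      refine Fintype.sum_of_injective σ hσinj _ _ ?_ ?_
      · intro c hc
        rw [hzero c hc]
        simp
      · intro c
        simp only [hmem, Finset.image_insert, Finset.image_singleton]

end Pool.Agent.Helper39.LC
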