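import Mathlib
import Pool.Agent.Helper52.LC.Defs
import Pool.Agent.Helper39.LCReduce

/-!
# Loose cycles and Lagrangians: the reduction of the main theorem to the core statement
-/

namespace Pool.Agent.Helper39.LC

open Finset Pool.Agent.Helper52.LC

/-- The full ordered link. -/
theorem full_link {m : ℕ} (x : Fin m → ℝ) (hsum : ∑ i, x i = 1) (a : Fin m) :
    ∑ b, ∑ c, (if a ≠ b ∧ a ≠ c ∧ b ≠ c then x b * x c else 0) =
      1 - 2 * x a + 2 * (x a) ^ 2 - ∑ i, (x i) ^ 2 := by
  have h1 : ∀ b, ∑ c, (if a ≠ b ∧ a ≠ c ∧ b ≠ c then x b * x c else 0) =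
      x b * (1 - x a - x b) - (if b = a then x a * (1 - 2 * x a) else 0) := by
    intro b
    by_cases hb : b = a
    · subst hb
      simp only [ne_eq, not_true_eq_false, false_and, if_false, Finset.sum_const_zero, if_true]
      ring
    · have e1 : ∀ c, (if a ≠ b ∧ a ≠ c ∧ b ≠ c then x b * x c else 0) =
          x b * x c - (if c = a then x b * x a else 0) - (if c = b then x b * x b else 0) := by
        intro c
        by_cases h1 : c = a
        · subst h1
          have : ¬ c = b := fun h => hb h.symm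
          simp [this]
        · by_cases h2 : c = b
          · subst h2
            simp [h1]
          · have h3 : a ≠ b ∧ a ≠ c ∧ b ≠ c := ⟨fun h => hb h.symm, fun h => h1 h.symm, fun h => h2 h.symm⟩
            rw [if_pos h3, if_neg h1, if_neg h2]
            ring
      rw [Finset.sum_congr rfl fun c _ => e1 c]
      rw [Finset.sum_sub_distrib, Finset.sum_sub_distrib, ← Finset.mul_sum, hsum]
      simp only [Finset.sum_ite_eq', Finset.mem_univ, if_true, if_neg hb]
      ring
  rw [Finset.sum_congr rfl fun b _ => h1 b, Finset.sum_sub_distrib]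
  have h2 : ∑ b, x b * (1 - x a - x b) = (1 - x a) * ∑ b, x b - ∑ b, (x b) ^ 2 := by
    rw [Finset.mul_sum, ← Finset.sum_sub_distrib]
    exact Finset.sum_congr rfl fun b _ => by ring
  rw [h2, hsum]
  simp only [Finset.sum_ite_eq', Finset.mem_univ, if_true]
  ring

theorem distinct_of_mem {m : ℕ} {E : Finset (Finset (Fin m))} (hE : IsThreeGraph E)
    {a b c : Fin m} (h : ({a, b, c} : Finset (Fin m)) ∈ E) : a ≠ b ∧ a ≠ c ∧ b ≠ c := by
  have hcard := hE _ h
  refine ⟨?_, ?_, ?_⟩
  · rintro rfl
    have : ({a, a, c} : Finset (Fin m)).card ≤ 2 := by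
      rw [Finset.insert_eq_of_mem (by simp)]; exact Finset.card_le_two
    omega
  · rintro rfl
    have : ({a, b, a} : Finset (Fin m)).card ≤ 2 := by
      rw [Finset.insert_eq_of_mem (by simp)]; exact Finset.card_le_two
    omega
  · rintro rfl
    have : ({a, b, b} : Finset (Fin m)).card ≤ 2 := by
      rw [Finset.insert_eq_of_mem (s := {b}) (by simp)]; exact Finset.card_le_two
    omega

/-- The weight of the missing ordered pairs in the link of `a`. -/
noncomputable def miss {m : ℕ} (E : Finset (Finset (Fin m))) (x : Fin m → ℝ) (a : Fin m) : ℝ :=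
  ∑ b, ∑ c, (if (a ≠ b ∧ a ≠ c ∧ b ≠ c) ∧ ({a, b, c} : Finset (Fin m)) ∉ E then x b * x c else 0)

theorem miss_nonneg {m : ℕ} (E : Finset (Finset (Fin m))) (x : Fin m → ℝ) (hx : ∀ i, 0 < x i)
    (a : Fin m) : 0 ≤ miss E x a := by
  refine Finset.sum_nonneg fun b _ => Finset.sum_nonneg fun c _ => ?_
  split_ifs
  · exact (mul_pos (hx b) (hx c)).le
  · exact le_rfl

theorem link_add_miss {m : ℕ} {E : Finset (Finset (Fin m))} (hE : IsThreeGraph E) (x : Fin m → ℝ)
    (hsum : ∑ i, x i = 1) (a : Fin m) :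
    link E x a + miss E x a = 1 - 2 * x a + 2 * (x a) ^ 2 - ∑ i, (x i) ^ 2 := by
  rw [← full_link x hsum a, link, miss, ← Finset.sum_add_distrib]
  refine Finset.sum_congr rfl fun b _ => ?_
  rw [← Finset.sum_add_distrib]
  refine Finset.sum_congr rfl fun c _ => ?_
  by_cases h : ({a, b, c} : Finset (Fin m)) ∈ E
  · have := distinct_of_mem hE h
    rw [if_pos h, if_pos this, if_neg (fun h' => h'.2 h)]
    ring
  · by_cases h' : a ≠ b ∧ a ≠ c ∧ b ≠ c
    · rw [if_neg h, if_pos ⟨h', h⟩, if_pos h']
      ring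
    · rw [if_neg h, if_neg (fun h'' => h' h''.1), if_neg h']
      ring

/-- Summing the links over a positive weighting with constant links. -/
theorem sum_link {m : ℕ} {E : Finset (Finset (Fin m))} (hE : IsThreeGraph E) (x : Fin m → ℝ)
    (hsum : ∑ i, x i = 1) {θ : ℝ} (hθ : ∀ a, link E x a = θ) :
    m * θ + ∑ a, miss E x a = (m - 2) * (1 - ∑ i, (x i) ^ 2) := by
  have h1 : ∑ a, (link E x a + miss E x a) =
      ∑ a, (1 - 2 * x a + 2 * (x a) ^ 2 - ∑ i, (x i) ^ 2) :=
    Finset.sum_congr rfl fun a _ => link_add_miss hE x hsum a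
  rw [Finset.sum_add_distrib, Finset.sum_congr rfl fun a _ => hθ a] at h1
  simp only [Finset.sum_const, Finset.card_univ, Fintype.card_fin, nsmul_eq_mul,
    Finset.sum_sub_distrib, Finset.sum_add_distrib, ← Finset.mul_sum, hsum] at h1
  rw [h1]
  ring

theorem card_pos_of_sum {m : ℕ} (x : Fin m → ℝ) (hsum : ∑ i, x i = 1) : 0 < m := by
  rcases Nat.eq_zero_or_pos m with h | h
  · subst h
    simp at hsum
  · exact h

theorem one_le_card_mul {m : ℕ} (x : Fin m → ℝ) (hsum : ∑ i, x i = 1) :
    1 ≤ m * ∑ i, (x i) ^ 2 := by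
  have := sq_sum_le_card_mul_sum_sq (s := (Finset.univ : Finset (Fin m))) (f := x)
  rw [hsum] at this
  simpa using this

/-- `6 λ(K_m)`. -/
theorem theta_le {m : ℕ} (h2 : 2 ≤ m) {E : Finset (Finset (Fin m))} (hE : IsThreeGraph E)
    (x : Fin m → ℝ) (hx : ∀ i, 0 < x i) (hsum : ∑ i, x i = 1) {θ : ℝ}
    (hθ : ∀ a, link E x a = θ) :
    θ ≤ ((m : ℝ) - 1) * (m - 2) / m ^ 2 ∧
      (θ = ((m : ℝ) - 1) * (m - 2) / m ^ 2 →
        ∀ e : Finset (Fin m), e.card = 3 → e ∈ E) := by
  have hm : (2 : ℝ) ≤ m := by exact_mod_cast h2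
  have hm0 : (0 : ℝ) < m := by linarith
  have h1 := sum_link hE x hsum hθ
  have h3 := one_le_card_mul x hsum
  have h4 : 0 ≤ ∑ a, miss E x a := Finset.sum_nonneg fun a _ => miss_nonneg E x hx a
  set Q := ∑ i, (x i) ^ 2 with hQ
  have h5 : (m : ℝ) * (m * θ + ∑ a, miss E x a) ≤ (m - 1) * (m - 2) := by
    rw [h1]
    nlinarith
  have h6 : (m : ℝ) ^ 2 * θ + m * ∑ a, miss E x a ≤ (m - 1) * (m - 2) := by nlinarith
  refine ⟨?_, ?_⟩
  · rw [le_div_iff₀ (by positivity)]
    nlinarith [mul_nonneg hm0.le h4]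
  · intro heq e he
    have h7 : (m : ℝ) ^ 2 * θ = (m - 1) * (m - 2) := by
      rw [heq]
      field_simp
    have h8 : ∑ a, miss E x a = 0 := by
      have : (m : ℝ) * ∑ a, miss E x a ≤ 0 := by linarith
      have : ∑ a, miss E x a ≤ 0 := by
        by_contra hcon
        push Not at hcon
        have := mul_pos hm0 hcon
        linarith
      exact le_antisymm this h4
    by_contra hne
    obtain ⟨a, b, c, hab, hac, hbc, habc⟩ := Finset.card_eq_three.mp he
    rw [Finset.sum_eq_zero_iff_of_nonneg (fun a _ => miss_nonneg E x hx a)] at h8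
    have h9 := h8 a (Finset.mem_univ a)
    have h10 : x b * x c ≤ miss E x a := by
      unfold miss
      have t1 : x b * x c = (if (a ≠ b ∧ a ≠ c ∧ b ≠ c) ∧ ({a, b, c} : Finset (Fin m)) ∉ E then x b * x c else 0) := by
        rw [if_pos]
        rw [← habc]
        exact ⟨⟨hab, hac, hbc⟩, hne⟩
      rw [t1]
      have t2 := Finset.single_le_sum (s := univ)
        (f := fun c' => (if (a ≠ b ∧ a ≠ c' ∧ b ≠ c') ∧ ({a, b, c'} : Finset (Fin m)) ∉ E then x b * x c' else 0))
        (fun c' _ => by
          split_ifs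
          · exact (mul_pos (hx b) (hx c')).le
          · exact le_rfl) (Finset.mem_univ c)
      refine le_trans t2 ?_
      exact Finset.single_le_sum (s := univ)
        (f := fun b' => ∑ c', (if (a ≠ b' ∧ a ≠ c' ∧ b' ≠ c') ∧ ({a, b', c'} : Finset (Fin m)) ∉ E then x b' * x c' else 0))
        (fun b' _ => Finset.sum_nonneg fun c' _ => by
          split_ifs
          · exact (mul_pos (hx b') (hx c')).le
          · exact le_rfl) (Finset.mem_univ b)
    have := mul_pos (hx b) (hx c)
    linarith

/-- For a single vertex the links vanish. -/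
theorem theta_one {m : ℕ} (h1 : m = 1) {E : Finset (Finset (Fin m))} (hE : IsThreeGraph E)
    (x : Fin m → ℝ) {θ : ℝ} (hθ : ∀ a, link E x a = θ) : θ = 0 := by
  subst h1
  rw [← hθ 0]
  unfold link
  refine Finset.sum_eq_zero fun b _ => Finset.sum_eq_zero fun c _ => ?_
  rw [if_neg]
  intro h
  exact (distinct_of_mem hE h).1 (Subsingleton.elim _ _)

/-- Monotonicity of `m ↦ (m-1)(m-2)/m²`. -/
theorem g_lt {m N : ℕ} (h1 : 1 ≤ m) (hN : 3 ≤ N) (h : m < N) :
    ((m : ℝ) - 1) * (m - 2) / m ^ 2 < ((N : ℝ) - 1) * (N - 2) / N ^ 2 := by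
  have a1 : (1 : ℝ) ≤ m := by exact_mod_cast h1
  have a2 : (3 : ℝ) ≤ N := by exact_mod_cast hN
  have a3 : (m : ℝ) + 1 ≤ N := by exact_mod_cast h
  rw [div_lt_div_iff₀ (by positivity) (by positivity)]
  have key : ((N : ℝ) - 1) * (N - 2) * m ^ 2 - (m - 1) * (m - 2) * N ^ 2 =
      (N - m) * (m * (N - 2) + 2 * N * (m - 1)) := by ring
  have : 0 < ((N : ℝ) - m) * (m * (N - 2) + 2 * N * (m - 1)) := by
    apply mul_pos
    · linarith
    · have : 0 < (m : ℝ) * (N - 2) := by apply mul_pos <;> linarith
      have : 0 ≤ 2 * (N : ℝ) * (m - 1) := by apply mul_nonneg <;> linarith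
      linarith
  linarith

theorem six_choose (m : ℕ) : 6 * (m.choose 3 : ℝ) = m * (m - 1) * (m - 2) := by
  induction m with
  | zero => simp
  | succ k ih =>
    have h2 : 2 * (k.choose 2 : ℝ) = k * (k - 1) := by
      rw [Nat.cast_choose_two]
      ring
    rw [Nat.choose_succ_succ' k 2]
    push_cast
    linarith [ih, h2]

/-- The upper bound for the Lagrangian of a 3-graph whose optimal support has `m` vertices. -/
theorem lag_le_of_small {m : ℕ} {E : Finset (Finset (Fin m))} (hE : IsThreeGraph E)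
    (x : Fin m → ℝ) (hx : ∀ i, 0 < x i) (hsum : ∑ i, x i = 1) {θ : ℝ}
    (hθ : ∀ a, link E x a = θ) : θ ≤ ((m : ℝ) - 1) * (m - 2) / m ^ 2 := by
  have hm := card_pos_of_sum x hsum
  rcases Nat.lt_or_ge m 2 with h | h
  · have h1 : m = 1 := by omega
    have := theta_one h1 hE x hθ
    rw [this, h1]
    norm_num
  · exact (theta_le h hE x hx hsum hθ).1

theorem isThreeGraph_complete (V : Type*) [Fintype V] [DecidableEq V] :
    IsThreeGraph (completeThree V) := by
  intro e he
  exact (Finset.mem_powersetCard.mp he).2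

/-- **Lagrangian of the complete 3-graph.** -/
theorem six_lag_completeThree {m : ℕ} (h1 : 1 ≤ m) :
    6 * lag (completeThree (Fin m)) = ((m : ℝ) - 1) * (m - 2) / m ^ 2 := by
  have hm0 : (0 : ℝ) < m := by exact_mod_cast h1
  apply le_antisymm
  · obtain ⟨m', σ, x, hσ, hx, -, hsum, hE', hlink⟩ :=
      reduce (by omega) (completeThree (Fin m)) (isThreeGraph_complete _)
    have hle : m' ≤ m := by simpa using Fintype.card_le_of_injective σ hσ
    have hb := lag_le_of_small hE' x hx hsum hlink
    have hm' := card_pos_of_sum x hsum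
    rcases hle.lt_or_eq with h | h
    · rcases Nat.lt_or_ge m 3 with h3 | h3
      · have hm2 : m = 2 := by omega
        have hm1 : m' = 1 := by omega
        rw [hm1] at hb
        rw [hm2] at hb ⊢
        norm_num at hb ⊢
        exact hb
      · exact hb.trans (g_lt hm' h3 h).le
    · rw [h] at hb
      exact hb
  · have hu : (fun _ : Fin m => (1 : ℝ) / m) ∈ stdSimplex ℝ (Fin m) := by
      refine ⟨fun i => by positivity, ?_⟩
      rw [Finset.sum_const, Finset.card_univ, Fintype.card_fin, nsmul_eq_mul]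
      field_simp
    have := lagPoly_le_lag (completeThree (Fin m)) hu
    have h2 : lagPoly (completeThree (Fin m)) (fun _ : Fin m => (1 : ℝ) / m) =
        (m.choose 3 : ℝ) * (1 / m) ^ 3 := by
      unfold lagPoly
      rw [Finset.sum_congr rfl (g := fun _ => ((1 : ℝ) / m) ^ 3)]
      · rw [Finset.sum_const, nsmul_eq_mul]
        congr 1
        rw [completeThree, Finset.card_powersetCard, Finset.card_univ, Fintype.card_fin]
      · intro e he
        rw [Finset.prod_const, isThreeGraph_complete _ e he]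
    rw [h2] at this
    have h3 := six_choose m
    calc ((m : ℝ) - 1) * (m - 2) / m ^ 2 = 6 * (m.choose 3 : ℝ) * (1 / m) ^ 3 := by
          rw [h3]
          field_simp
      _ ≤ 6 * lag (completeThree (Fin m)) := by linarith

theorem lag_completeThree {m : ℕ} (h1 : 1 ≤ m) :
    lag (completeThree (Fin m)) = (m.choose 3 : ℝ) / m ^ 3 := by
  have h := six_lag_completeThree h1
  have h3 := six_choose m
  have hm0 : (0 : ℝ) < m := by exact_mod_cast h1
  have : 6 * lag (completeThree (Fin m)) = 6 * ((m.choose 3 : ℝ) / m ^ 3) := by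
    rw [h, ← mul_div_assoc, h3]
    field_simp
  linarith

/-- Loose cycles are transported by injections. -/
theorem hasLooseCycle_of_pull {m n : ℕ} {t : ℕ} {ht : 0 < t} {σ : Fin m → Fin n}
    (hσ : Function.Injective σ) {E : Finset (Finset (Fin n))}
    (h : HasLooseCycle t ht (univ.filter fun e : Finset (Fin m) => e.image σ ∈ E)) :
    HasLooseCycle t ht E := by
  obtain ⟨f, hf, hE⟩ := h
  refine ⟨σ ∘ f, hσ.comp hf, fun i => ?_⟩
  have := hE i
  rw [Finset.mem_filter] at this
  rw [← Finset.image_image]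
  exact this.2

/-- **The main theorem from the core statement.** -/
theorem main_of_core (t : ℕ) (ht : 0 < t) (h2 : 2 ≤ t) (hcore : Core t ht) :
    ∀ (n : ℕ) (E : Finset (Finset (Fin n))), IsThreeGraph E → ¬ HasLooseCycle t ht E →
      lag E ≤ lag (completeThree (Fin (2 * t - 1))) ∧
      (lag E = lag (completeThree (Fin (2 * t - 1))) →
        ∃ S : Finset (Fin n), S.card = 2 * t - 1 ∧
          ∀ e : Finset (Fin n), e ⊆ S → e.card = 3 → e ∈ E) := by
  intro n E hE hfree
  have hN3 : 3 ≤ 2 * t - 1 := by omega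
  have hNcast : ((2 * t - 1 : ℕ) : ℝ) = 2 * t - 1 := by
    rw [Nat.cast_sub (by omega)]
    push_cast
    ring
  have hK := six_lag_completeThree (m := 2 * t - 1) (by omega)
  have h2r : (2 : ℝ) ≤ t := by exact_mod_cast h2
  have hKpos : 0 < lag (completeThree (Fin (2 * t - 1))) := by
    have : 0 < ((2 * t - 1 : ℕ) - 1 : ℝ) * ((2 * t - 1 : ℕ) - 2) / ((2 * t - 1 : ℕ) : ℝ) ^ 2 := by
      rw [hNcast]
      apply div_pos
      · apply mul_pos <;> linarith
      · apply pow_pos; linarith
    linarith
  rcases Nat.eq_zero_or_pos n with hn | hn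
  · have hz : lag E = 0 := by
      subst hn
      unfold lag
      have : stdSimplex ℝ (Fin 0) = ∅ := by
        ext y
        simp [stdSimplex]
      rw [this, Set.image_empty, Real.sSup_empty]
    rw [hz]
    exact ⟨hKpos.le, fun h => absurd h hKpos.ne⟩
  obtain ⟨m, σ, x, hσ, hx, hsort, hsum, hE', hlink⟩ := reduce hn E hE
  rcases Nat.lt_or_ge m (2 * t) with hm | hm
  · -- few vertices in the support
    have hb := lag_le_of_small hE' x hx hsum hlink
    have hmpos := card_pos_of_sum x hsum
    have hmN : m ≤ 2 * t - 1 := by omega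
    rcases hmN.lt_or_eq with h | h
    · have hlt : 6 * lag E < 6 * lag (completeThree (Fin (2 * t - 1))) := by
        rw [hK]
        exact lt_of_le_of_lt hb (g_lt hmpos hN3 h)
      exact ⟨by linarith, fun h => absurd h (by intro h; rw [h] at hlt; exact lt_irrefl _ hlt)⟩
    · subst h
      refine ⟨by linarith, fun heq => ?_⟩
      have hall := (theta_le (by omega) hE' x hx hsum hlink).2 (by rw [heq, hK])
      refine ⟨univ.image σ, ?_, ?_⟩
      · rw [Finset.card_image_of_injective _ hσ, Finset.card_univ, Fintype.card_fin]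
      · intro e he hcard
        obtain ⟨e', -, he'⟩ := Finset.subset_image_iff.mp he
        have hc' : e'.card = 3 := by
          rw [← hcard, ← he', Finset.card_image_of_injective _ hσ]
        have := hall e' hc'
        rw [Finset.mem_filter, he'] at this
        exact this.2
  · -- many vertices in the support: the core statement applies
    have hlt : lag E < lag (completeThree (Fin (2 * t - 1))) := by
      by_contra hcon
      push Not at hcon
      apply hfree
      refine hasLooseCycle_of_pull hσ (hcore m _ x (6 * lag E) hE' hm hx hsort hsum ?_ hlink)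
      have : ((2 * t - 2) * (2 * t - 3) : ℝ) / (2 * t - 1) ^ 2 =
          6 * lag (completeThree (Fin (2 * t - 1))) := by
        rw [hK, hNcast]
        congr 1
        ring
      rw [this]
      linarith
    exact ⟨hlt.le, fun h => absurd h hlt.ne⟩

/-- `K_{2t-1}` has no loose cycle of length `t`. -/
theorem complete_free (t : ℕ) (ht : 0 < t) :
    ¬ HasLooseCycle t ht (completeThree (Fin (2 * t - 1))) := by
  rintro ⟨f, hf, -⟩
  have := Fintype.card_le_of_injective f hf
  simp only [Fintype.card_fin] at this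
  omega

/-- **Perfectness.** -/
theorem perfect_of_core (t : ℕ) (ht : 0 < t) (h2 : 2 ≤ t) (hcore : Core t ht) :
    sSup {r : ℝ | ∃ (n : ℕ) (E : Finset (Finset (Fin n))), IsThreeGraph E ∧
      ¬ HasLooseCycle t ht E ∧ r = 6 * lag E} = 6 * lag (completeThree (Fin (2 * t - 1))) := by
  apply IsGreatest.csSup_eq
  refine ⟨⟨2 * t - 1, _, isThreeGraph_complete _, complete_free t ht, rfl⟩, ?_⟩
  rintro r ⟨n, E, hE, hfree, rfl⟩
  have := (main_of_core t ht h2 hcore n E hE hfree).1
  linarith

end Pool.Agent.Helper39.LC
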